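import Pool.Agent.W446.GP.Tor

/-!
# The classification of the torsors containing the period point
-/

set_option linter.unusedSectionVars false
set_option linter.unusedVariables false

namespace Pool.Agent.W446.GP

open MvPolynomial

noncomputable section

variable {R J : Type}

variable [Fintype R]

theorem mono_eq_iff (m : R → ℤ) (u : (Alg R J)ˣ) (c : ℂ) :
    mono m (u : Alg R J).1 = c ↔
      ∏ r, (u : Alg R J).1 r ^ (m r).toNat = c * ∏ r, (u : Alg R J).1 r ^ (-m r).toNat := by
  have hne : ∏ r, (u : Alg R J).1 r ^ (-m r).toNat ≠ 0 :=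
    Finset.prod_ne_zero_iff.2 fun r _ => pow_ne_zero _ (unit_ne (t := fstU u) r)
  rw [← div_eq_iff hne]
  have h : mono m (u : Alg R J).1 = (∏ r, (u : Alg R J).1 r ^ (m r).toNat) /
      ∏ r, (u : Alg R J).1 r ^ (-m r).toNat := by
    unfold mono
    rw [← Finset.prod_div_distrib]
    refine Finset.prod_congr rfl fun r _ => ?_
    have h1 : (m r : ℤ) = ((m r).toNat : ℤ) - ((-m r).toNat : ℤ) :=
      (Int.toNat_sub_toNat_neg (m r)).symm
    conv_lhs => rw [h1]
    have h2 : (u : Alg R J).1 r ≠ 0 := unit_ne (t := fstU u) r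
    rw [zpow_sub₀ h2, zpow_natCast, zpow_natCast]
  rw [h]

theorem mono_mulU (m : R → ℤ) (u v : (Alg R J)ˣ) :
    mono m ((u * v : (Alg R J)ˣ) : Alg R J).1 = mono m (u : Alg R J).1 * mono m (v : Alg R J).1 :=
  mono_mul m _ _

theorem mono_invU (m : R → ℤ) (u : (Alg R J)ˣ) :
    mono m (u : Alg R J).1 * mono m ((u⁻¹ : (Alg R J)ˣ) : Alg R J).1 = 1 := by
  rw [← mono_mulU, mul_inv_cancel]
  exact mono_one m

theorem det_mulU (j : J) (u v : (Alg R J)ˣ) :
    (((u * v : (Alg R J)ˣ) : Alg R J).2 j).det =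
      ((u : Alg R J).2 j).det * ((v : Alg R J).2 j).det := Matrix.det_mul _ _

/-- The subgroup corresponding to a group of exponents. -/
def subG (a : R) (N : AddSubgroup (R → ℤ)) : Subgroup (Alg R J)ˣ where
  carrier := {u | u ∈ Om a ∧ ∀ m ∈ N, mono m (u : Alg R J).1 = 1}
  one_mem' := ⟨fun j => Matrix.det_one, fun m _ => mono_one m⟩
  mul_mem' := by
    rintro u v ⟨hu1, hu2⟩ ⟨hv1, hv2⟩
    refine ⟨fun j => ?_, fun m hm => ?_⟩
    · rw [det_mulU, hu1, hv1]
      rfl
    · rw [mono_mulU, hu2 m hm, hv2 m hm, one_mul]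
  inv_mem' := by
    rintro u ⟨hu1, hu2⟩
    refine ⟨fun j => ?_, fun m hm => ?_⟩
    · have h1 : ((u : Alg R J).2 j).det * (((u⁻¹ : (Alg R J)ˣ) : Alg R J).2 j).det = 1 := by
        rw [← det_mulU, mul_inv_cancel]
        exact Matrix.det_one
      have h2 : (u : Alg R J).1 a * ((u⁻¹ : (Alg R J)ˣ) : Alg R J).1 a = 1 :=
        congrFun (fstU u).mul_inv a
      rw [hu1] at h1
      exact mul_left_cancel₀ (unit_ne (t := fstU u) a) (h1.trans h2.symm)
    · have h1 := mono_invU m u
      rwa [hu2 m hm, one_mul] at h1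

theorem mem_Om_iff (a : R) {x u : (Alg R J)ˣ} (hx : x ∈ Om a) :
    u ∈ Om a ↔ x⁻¹ * u ∈ Om a := by
  have h0 : ∀ {x u : (Alg R J)ˣ}, x ∈ Om a → u ∈ Om a → x * u ∈ Om a := by
    intro x u hx hu j
    rw [det_mulU, hx, hu]
    rfl
  have h1 : x⁻¹ ∈ Om a := ((subG a ⊥).inv_mem (x := x) ⟨hx, fun m hm => by
    rw [AddSubgroup.mem_bot] at hm
    rw [hm]
    unfold mono
    simp⟩).1
  constructor
  · exact fun h => h0 h1 h
  · intro h
    have h2 := h0 hx h
    rwa [mul_inv_cancel_left] at h2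

theorem subT_coset (a : R) {x : (Alg R J)ˣ} (hx : x ∈ Om a) (N : AddSubgroup (R → ℤ)) :
    subT a x N = {u | x⁻¹ * u ∈ subG a N} := by
  ext u
  constructor
  · rintro ⟨h1, h2⟩
    refine ⟨(mem_Om_iff a hx).1 h1, fun m hm => ?_⟩
    rw [mono_mulU, h2 m hm, mul_comm]
    exact mono_invU m x
  · rintro ⟨h1, h2⟩
    refine ⟨(mem_Om_iff a hx).2 h1, fun m hm => ?_⟩
    have h3 := h2 m hm
    have h4 : mono m (u : Alg R J).1 = mono m ((x * (x⁻¹ * u) : (Alg R J)ˣ) : Alg R J).1 := by
      rw [mul_inv_cancel_left]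
    rw [h4, mono_mulU, h3, mul_one]

section

variable [Fintype J] [DecidableEq R] [DecidableEq J]

theorem closed_subT (a : R) (x : (Alg R J)ˣ) (N : AddSubgroup (R → ℤ)) (hN : N ≤ algMono x) :
    ∃ P : Set (MvPolynomial (Crd R J) Qb),
      subT a x N = {u : (Alg R J)ˣ | ∀ f ∈ P, aeval (crd (u : Alg R J)) f = 0} := by
  refine ⟨{f | (∃ j, f = detP j - X (Sum.inl a)) ∨ ∃ m, ∃ hm : m ∈ N,
    f = ∏ r, X (Sum.inl r) ^ (m r).toNat -
      C (⟨mono m (x : Alg R J).1, hN hm⟩ : Qb) * ∏ r, X (Sum.inl r) ^ (-m r).toNat}, ?_⟩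
  have hD : ∀ (u : (Alg R J)ˣ) j, aeval (crd (u : Alg R J)) (detP j - X (Sum.inl a) :
      MvPolynomial (Crd R J) Qb) = ((u : Alg R J).2 j).det - (u : Alg R J).1 a := by
    intro u j
    rw [map_sub, aeval_detP, aeval_X]
    rfl
  have hM : ∀ (u : (Alg R J)ˣ) (m : R → ℤ) (c : Qb), aeval (crd (u : Alg R J))
      (∏ r, X (Sum.inl r) ^ (m r).toNat - C c * ∏ r, X (Sum.inl r) ^ (-m r).toNat :
        MvPolynomial (Crd R J) Qb) = ∏ r, (u : Alg R J).1 r ^ (m r).toNat -
        (c : ℂ) * ∏ r, (u : Alg R J).1 r ^ (-m r).toNat := by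
    intro u m c
    simp only [map_sub, map_mul, map_prod, map_pow, aeval_X, aeval_C]
    rfl
  ext u
  constructor
  · rintro ⟨h1, h2⟩ f (⟨j, rfl⟩ | ⟨m, hm, rfl⟩)
    · rw [hD, h1, sub_self]
    · rw [hM, (mono_eq_iff m u _).1 (h2 m hm), sub_self]
  · intro h
    refine ⟨fun j => ?_, fun m hm => ?_⟩
    · have h1 := h _ (Or.inl ⟨j, rfl⟩)
      rw [hD] at h1
      exact sub_eq_zero.1 h1
    · have h1 := h _ (Or.inr ⟨m, hm, rfl⟩)
      rw [hM] at h1
      exact (mono_eq_iff m u _).2 (sub_eq_zero.1 h1)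

/-- The subsets `subT a x N` are torsors. -/
theorem isTorsor_subT (a : R) {x : (Alg R J)ˣ} (hx : x ∈ Om a) (N : AddSubgroup (R → ℤ))
    (hN : N ≤ algMono x) : IsTorsor (subT a x N) :=
  ⟨closed_subT a x N hN, subG a N, x, subT_coset a hx N⟩

/-- Every torsor containing the period point is of this form. -/
theorem torsor_eq (a : R) {x : (Alg R J)ˣ} (hx : x ∈ Om a)
    (hind : LinearIndependent Qb fun t : J × Fin 2 × Fin 2 => (x : Alg R J).2 t.1 t.2.1 t.2.2)
    {T : Set (Alg R J)ˣ} (hT : IsTorsor T) (hxT : x ∈ T) :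
    ∃ N ≤ algMono x, T ∩ Om a = subT a x N := by
  classical
  obtain ⟨⟨P, hP⟩, G, t, ht⟩ := hT
  have hG : ∀ u : (Alg R J)ˣ, u ∈ T ↔ x⁻¹ * u ∈ G := by
    intro u
    have h1 : t⁻¹ * x ∈ G := by
      rw [ht] at hxT
      exact hxT
    rw [ht]
    change t⁻¹ * u ∈ G ↔ _
    have h2 : x⁻¹ * u = (t⁻¹ * x)⁻¹ * (t⁻¹ * u) := by group
    rw [h2]
    constructor
    · exact fun h => G.mul_mem (G.inv_mem h1) h
    · intro h
      have h3 := G.mul_mem h1 h
      rwa [mul_inv_cancel_left] at h3
  have hGP : ∀ u : (Alg R J)ˣ, x⁻¹ * u ∈ G ↔ ∀ f ∈ P, aeval (crd (u : Alg R J)) f = 0 := by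
    intro u
    rw [← hG, hP]
    rfl
  have hSL := fun (u : (Alg R J)ˣ) h1 h2 => sl2_sub a hx hind hGP u h1 h2
  have hcl := closed_group hGP
  let N : AddSubgroup (R → ℤ) :=
    { carrier := {m | ∀ y ∈ T ∩ Om a, mono m (y : Alg R J).1 = mono m (x : Alg R J).1}
      zero_mem' := by
        intro y _
        unfold mono
        simp
      add_mem' := by
        intro m m' hm hm' y hy
        have h : ∀ z : (Alg R J)ˣ, mono (m + m') (z : Alg R J).1 =
            mono m (z : Alg R J).1 * mono m' (z : Alg R J).1 := by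
          intro z
          unfold mono
          rw [← Finset.prod_mul_distrib]
          refine Finset.prod_congr rfl fun r _ => ?_
          exact zpow_add₀ (unit_ne (t := fstU z) r) _ _
        rw [h, h, hm y hy, hm' y hy]
      neg_mem' := by
        intro m hm y hy
        have h : ∀ z : (Alg R J)ˣ, mono (-m) (z : Alg R J).1 = (mono m (z : Alg R J).1)⁻¹ := by
          intro z
          unfold mono
          rw [← Finset.prod_inv_distrib]
          refine Finset.prod_congr rfl fun r _ => ?_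
          rw [Pi.neg_apply, zpow_neg]
        rw [h, h, hm y hy] }
  have hmemN : ∀ m, m ∈ N ↔ ∀ y ∈ T ∩ Om a, mono m (y : Alg R J).1 = mono m (x : Alg R J).1 :=
    fun m => Iff.rfl
  refine ⟨N, ?_, ?_⟩
  · intro m hm
    obtain ⟨k, hk, hreg, -⟩ := density (reg_of_unit x) 1 (by rw [map_one]; exact one_ne_zero)
    have h1 : toU (pt k) hreg ∈ T := (hG _).2 (point_mem hGP hk hreg)
    have h2 : toU (pt k) hreg ∈ Om a := fun j => det_eq_of_ZK a hx hk j
    have h3 := (hmemN m).1 hm _ ⟨h1, h2⟩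
    change mono m (x : Alg R J).1 ∈ Qb
    rw [← h3]
    change ∏ r, ((k (Sum.inl r) : Qb) : ℂ) ^ m r ∈ Qb
    exact prod_mem fun r _ => zpow_mem (Subtype.mem _) _
  · ext y
    constructor
    · rintro ⟨h1, h2⟩
      exact ⟨h2, fun m hm => (hmemN m).1 hm y ⟨h1, h2⟩⟩
    · rintro ⟨h1, h2⟩
      refine ⟨(hG y).2 ?_, h1⟩
      rw [mem_iff_sec a hSL _ ((mem_Om_iff a hx).1 h1)]
      apply torus a hcl
      intro m hm
      have h3 : m ∈ N := by
        rw [hmemN]
        rintro y' ⟨hy1, hy2⟩
        have h4 := (mem_iff_sec a hSL _ ((mem_Om_iff a hx).1 hy2)).1 ((hG y').1 hy1)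
        have h5 : mono m ((x⁻¹ * y' : (Alg R J)ˣ) : Alg R J).1 = 1 := hm _ h4
        have h6 : mono m (y' : Alg R J).1 = mono m ((x * (x⁻¹ * y') : (Alg R J)ˣ) : Alg R J).1 := by
          rw [mul_inv_cancel_left]
        rw [h6, mono_mulU, h5, mul_one]
      have h7 := h2 m h3
      change mono m ((x⁻¹ * y : (Alg R J)ˣ) : Alg R J).1 = 1
      rw [mono_mulU, h7, mul_comm]
      exact mono_invU m x

theorem subT_bot (a : R) (x : (Alg R J)ˣ) : subT a x ⊥ = Om a := by
  ext u
  constructor
  · exact fun h => h.1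
  · intro h
    refine ⟨h, fun m hm => ?_⟩
    rw [AddSubgroup.mem_bot] at hm
    rw [hm]
    unfold mono
    simp

/-- If no nontrivial monomial is algebraic, then every torsor containing the period point contains
everything. -/
theorem Om_subset (a : R) {x : (Alg R J)ˣ} (hx : x ∈ Om a)
    (hind : LinearIndependent Qb fun t : J × Fin 2 × Fin 2 => (x : Alg R J).2 t.1 t.2.1 t.2.2)
    (hm : algMono x = ⊥) {T : Set (Alg R J)ˣ} (hT : IsTorsor T) (hxT : x ∈ T) : Om a ⊆ T := by
  obtain ⟨N, hN, h⟩ := torsor_eq a hx hind hT hxT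
  rw [hm, le_bot_iff] at hN
  rw [hN, subT_bot] at h
  intro u hu
  rw [← h] at hu
  exact hu.1

/-- The closure is everything if and only if it is a torsor and no nontrivial monomial is
algebraic. -/
theorem clos_eq_iff (a : R) {x : (Alg R J)ˣ} (hx : x ∈ Om a)
    (hind : LinearIndependent Qb fun t : J × Fin 2 × Fin 2 => (x : Alg R J).2 t.1 t.2.1 t.2.2) :
    clos x = Om a ↔ IsTorsor (clos x) ∧ algMono x = ⊥ := by
  classical
  have hsub : clos x ⊆ Om a := by
    intro u hu j
    have h1 : aeval (crd (x : Alg R J)) (detP j - X (Sum.inl a) :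
        MvPolynomial (Crd R J) Qb) = 0 := by
      rw [map_sub, aeval_detP, aeval_X, hx]
      exact sub_self _
    have h2 := hu _ h1
    rw [map_sub, aeval_detP, aeval_X] at h2
    exact sub_eq_zero.1 h2
  constructor
  · intro h
    constructor
    · rw [h, ← subT_bot a x]
      exact isTorsor_subT a hx ⊥ bot_le
    · rw [eq_bot_iff]
      intro m hm
      rw [AddSubgroup.mem_bot]
      by_contra hne
      obtain ⟨r, hr⟩ := Function.ne_iff.1 hne
      have hr' : m r ≠ 0 := hr
      obtain ⟨P, hP⟩ := closed_subT a x (AddSubgroup.zmultiples m) (by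
        rw [AddSubgroup.zmultiples_le]
        exact hm)
      have h1 : Om a ⊆ subT a x (AddSubgroup.zmultiples m) := by
        intro u hu
        rw [← h] at hu
        rw [hP]
        intro f hf
        refine hu f ?_
        have h2 : x ∈ subT a x (AddSubgroup.zmultiples m) := ⟨hx, fun m _ => rfl⟩
        rw [hP] at h2
        exact h2 f hf
      -- a unit of the torus with a nontrivial value
      let t : (R → ℂ)ˣ :=
        { val := Function.update 1 r 2
          inv := Function.update 1 r (1 / 2)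
          val_inv := by
            funext r'
            by_cases hrr : r' = r
            · subst hrr
              simp
            · simp [Function.update_of_ne hrr]
          inv_val := by
            funext r'
            by_cases hrr : r' = r
            · subst hrr
              simp
            · simp [Function.update_of_ne hrr] }
      have h2 : x * sec a t ∈ Om a := by
        intro j
        rw [det_mulU, hx]
        change _ * (Matrix.diagonal ![(t : R → ℂ) a, 1]).det = (x : Alg R J).1 a * (t : R → ℂ) a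
        rw [Matrix.det_diagonal, Fin.prod_univ_two]
        change _ * ((t : R → ℂ) a * 1) = _
        rw [mul_one]
      have h3 := (h1 h2).2 m (AddSubgroup.mem_zmultiples m)
      rw [mono_mulU] at h3
      have h4 : mono m ((sec a t : (Alg R J)ˣ) : Alg R J).1 = 1 :=
        mul_left_cancel₀ (mono_ne m (fstU x)) (h3.trans (mul_one _).symm)
      have h5 : mono m ((sec a t : (Alg R J)ˣ) : Alg R J).1 = 2 ^ m r := by
        change ∏ r', (Function.update (1 : R → ℂ) r 2) r' ^ m r' = _
        rw [Finset.prod_eq_single r]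
        · rw [Function.update_self]
        · intro r' _ hrr
          rw [Function.update_of_ne hrr, Pi.one_apply, one_zpow]
        · intro h
          exact (h (Finset.mem_univ _)).elim
      rw [h5] at h4
      have h6 : ((2 : ℝ) ^ m r) = 1 := by
        have h7 := congrArg norm h4
        rw [norm_zpow, norm_one] at h7
        simpa using h7
      rw [zpow_eq_one_iff_right₀ (by norm_num) (by norm_num)] at h6
      exact hr' h6
  · rintro ⟨h1, h2⟩
    refine Set.Subset.antisymm hsub ?_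
    exact Om_subset a hx hind h2 h1 (fun f hf => hf)

end

end

end Pool.Agent.W446.GP
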