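import Mathlib

/-!
# Torsors of periods: definitions
-/

namespace Pool.Agent.W446.GP

open MvPolynomial

noncomputable section

/-- The field of algebraic numbers. -/
abbrev Qb : IntermediateField ℚ ℂ := algebraicClosure ℚ ℂ

/-- The algebra `ℂ^R × M_2(ℂ)^J`.  Its unit group `(Alg R J)ˣ` is `(ℂ^×)^R × GL_2(ℂ)^J`. -/
abbrev Alg (R J : Type) : Type := (R → ℂ) × (J → Matrix (Fin 2) (Fin 2) ℂ)

/-- The index set of the coordinates of `Alg R J`. -/
abbrev Crd (R J : Type) : Type := R ⊕ (J × Fin 2 × Fin 2)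

/-- The coordinates of an element of `Alg R J`. -/
def crd {R J : Type} (a : Alg R J) : Crd R J → ℂ :=
  Sum.elim a.1 (fun t => a.2 t.1 t.2.1 t.2.2)

variable {R J : Type}

/-- The torsors defined over the field of algebraic numbers: the subsets of the group of units of
`ℂ^R × M_2(ℂ)^J`, that is of `(ℂ^×)^R × GL_2(ℂ)^J`, which are defined by polynomials with algebraic
coefficients and are of the form `t G` with a subgroup `G`. -/
def IsTorsor (T : Set (Alg R J)ˣ) : Prop :=
  (∃ P : Set (MvPolynomial (Crd R J) Qb),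
    T = {u : (Alg R J)ˣ | ∀ f ∈ P, aeval (crd (u : Alg R J)) f = 0}) ∧
  ∃ (G : Subgroup (Alg R J)ˣ) (t : (Alg R J)ˣ), T = {u | t⁻¹ * u ∈ G}

/-- The points `(p, c)` such that `det c_j = p_a` for all `j`. -/
def Om (a : R) : Set (Alg R J)ˣ :=
  {u | ∀ j, ((u : Alg R J).2 j).det = (u : Alg R J).1 a}

/-- The Zariski closure over the field of algebraic numbers. -/
def clos (x : (Alg R J)ˣ) : Set (Alg R J)ˣ :=
  {u | ∀ f : MvPolynomial (Crd R J) Qb,
    aeval (crd (x : Alg R J)) f = 0 → aeval (crd (u : Alg R J)) f = 0}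

theorem fst_ne (x : (Alg R J)ˣ) (r : R) : (x : Alg R J).1 r ≠ 0 := by
  intro h
  have h1 : (x : Alg R J).1 r * ((x⁻¹ : (Alg R J)ˣ) : Alg R J).1 r = 1 := by
    have h2 : ((x : Alg R J) * ((x⁻¹ : (Alg R J)ˣ) : Alg R J)).1 r = 1 := by
      rw [Units.mul_inv]
      rfl
    exact h2
  rw [h, zero_mul] at h1
  exact zero_ne_one h1

variable [Fintype R]

/-- Monomials with integral exponents. -/
def mono (m : R → ℤ) (t : R → ℂ) : ℂ := ∏ r, t r ^ m r

/-- The exponents of the monomials whose value at `x` is algebraic. -/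
def algMono (x : (Alg R J)ˣ) : AddSubgroup (R → ℤ) where
  carrier := {m | mono m (x : Alg R J).1 ∈ Qb}
  zero_mem' := by
    change mono 0 _ ∈ Qb
    unfold mono
    simp only [Pi.zero_apply, zpow_zero, Finset.prod_const_one]
    exact Qb.one_mem
  add_mem' := by
    intro m m' hm hm'
    have h : mono (m + m') (x : Alg R J).1 = mono m (x : Alg R J).1 * mono m' (x : Alg R J).1 := by
      unfold mono
      rw [← Finset.prod_mul_distrib]
      refine Finset.prod_congr rfl fun r _ => ?_
      exact zpow_add₀ (fst_ne x r) _ _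
    change mono (m + m') _ ∈ Qb
    rw [h]
    exact Qb.mul_mem hm hm'
  neg_mem' := by
    intro m hm
    have h : mono (-m) (x : Alg R J).1 = (mono m (x : Alg R J).1)⁻¹ := by
      unfold mono
      rw [← Finset.prod_inv_distrib]
      refine Finset.prod_congr rfl fun r _ => ?_
      rw [Pi.neg_apply, zpow_neg]
    change mono (-m) _ ∈ Qb
    rw [h]
    exact Qb.inv_mem hm

/-- The points `y = (q, d)` with `det d_j = q_a` for all `j` at which the monomials with exponents
in `N` have the same value as at `x`. -/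
def subT (a : R) (x : (Alg R J)ˣ) (N : AddSubgroup (R → ℤ)) : Set (Alg R J)ˣ :=
  {u | u ∈ Om a ∧ ∀ m ∈ N, mono m (u : Alg R J).1 = mono m (x : Alg R J).1}

end

end Pool.Agent.W446.GP
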