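import Pool.Agent.W446.GP.Lie

/-!
# Diagonalisable elements of a group and its Lie algebra
-/

set_option linter.unusedSectionVars false
set_option linter.unusedVariables false

namespace Pool.Agent.W446.GP

open MvPolynomial

noncomputable section

/-- If all power sums vanish, then all sums of functions of the nodes vanish. -/
theorem sum_interp {ι : Type*} (s : Finset ι) (a v w : ι → ℂ)
    (h : ∀ k : ℕ, ∑ i ∈ s, a i * v i ^ k = 0)
    (hw : ∀ i ∈ s, ∀ j ∈ s, v i = v j → w i = w j) : ∑ i ∈ s, a i * w i = 0 := by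
  classical
  let r : ℂ → ℂ := fun x => if h : ∃ i ∈ s, v i = x then w h.choose else 0
  have hr : ∀ i ∈ s, r (v i) = w i := by
    intro i hi
    have hex : ∃ j ∈ s, v j = v i := ⟨i, hi, rfl⟩
    have : r (v i) = w hex.choose := dif_pos hex
    rw [this]
    exact hw _ hex.choose_spec.1 _ hi hex.choose_spec.2
  let q : Polynomial ℂ := Lagrange.interpolate (s.image v) id r
  have hq : ∀ i ∈ s, q.eval (v i) = w i := by
    intro i hi
    have h1 : q.eval (id (v i)) = r (v i) :=
      Lagrange.eval_interpolate_at_node r (Function.injective_id.injOn)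
        (Finset.mem_image_of_mem v hi)
    rw [id] at h1
    rw [h1, hr i hi]
  have h1 : ∑ i ∈ s, a i * w i =
      ∑ k ∈ Finset.range (q.natDegree + 1), q.coeff k * ∑ i ∈ s, a i * v i ^ k := by
    have h2 : ∀ i ∈ s, a i * w i =
        ∑ k ∈ Finset.range (q.natDegree + 1), q.coeff k * (a i * v i ^ k) := by
      intro i hi
      rw [← hq i hi, Polynomial.eval_eq_sum_range, Finset.mul_sum]
      refine Finset.sum_congr rfl fun k _ => ?_
      ring
    rw [Finset.sum_congr rfl h2, Finset.sum_comm]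
    refine Finset.sum_congr rfl fun k _ => ?_
    rw [Finset.mul_sum]
  rw [h1]
  refine Finset.sum_eq_zero fun k _ => ?_
  rw [h k, mul_zero]

variable {A : Type*} [Ring A] [Algebra ℂ A] {σ : Type*} [Fintype σ] [DecidableEq σ]
  (e : A ≃ₗ[ℂ] (σ → ℂ))

variable {β : Type*} [Fintype β] [DecidableEq β] (ε : β → A)

/-- The diagonal element with eigenvalues `x`. -/
def dg (x : β → ℂ) : A := ∑ b, x b • ε b

theorem dg_mul (horth : ∀ b b', ε b * ε b' = if b = b' then ε b else 0) (x y : β → ℂ) :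
    dg ε x * dg ε y = dg ε (fun b => x b * y b) := by
  unfold dg
  rw [Finset.sum_mul_sum]
  refine Finset.sum_congr rfl fun b _ => ?_
  rw [Finset.sum_eq_single b]
  · rw [smul_mul_smul_comm, horth, if_pos rfl]
  · intro b' _ hb
    rw [smul_mul_smul_comm, horth, if_neg hb.symm, smul_zero]
  · intro h
    exact (h (Finset.mem_univ _)).elim

theorem dg_one (hsum : ∑ b, ε b = 1) : dg ε (fun _ => (1 : ℂ)) = 1 := by
  unfold dg
  simp only [one_smul]
  exact hsum

theorem dg_pow (horth : ∀ b b', ε b * ε b' = if b = b' then ε b else 0) (hsum : ∑ b, ε b = 1)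
    (x : β → ℂ) (k : ℕ) : dg ε x ^ k = dg ε (fun b => x b ^ k) := by
  induction k with
  | zero =>
    have h : (fun b => x b ^ 0) = fun _ => (1 : ℂ) := by
      funext b
      exact pow_zero _
    rw [pow_zero, h, dg_one ε hsum]
  | succ k ih =>
    rw [pow_succ, ih, dg_mul ε horth]
    congr 1

/-- The polynomial restricted to the diagonal elements. -/
def res (g : A) : MvPolynomial σ ℂ →ₐ[ℂ] MvPolynomial β ℂ :=
  aeval (fun i => ∑ b, C (e (g * ε b) i) * MvPolynomial.X b)

theorem sum_res (g : A) (x : β → ℂ) (i : σ) :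
    ∑ b, e (g * ε b) i * x b = e (g * dg ε x) i := by
  unfold dg
  rw [Finset.mul_sum, map_sum, Finset.sum_apply]
  refine Finset.sum_congr rfl fun b _ => ?_
  rw [mul_smul_comm, map_smul, Pi.smul_apply, smul_eq_mul, mul_comm]

theorem eval_res (g : A) (x : β → ℂ) (f : MvPolynomial σ ℂ) :
    eval x (res e ε g f) = ev e (g * dg ε x) f := by
  have h : (aeval x).comp (res e ε g) = (aeval (e (g * dg ε x)) : MvPolynomial σ ℂ →ₐ[ℂ] ℂ) := by
    apply MvPolynomial.algHom_ext
    intro i
    rw [AlgHom.comp_apply, res, aeval_X, aeval_X, map_sum, ← sum_res]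
    refine Finset.sum_congr rfl fun k _ => ?_
    rw [map_mul, aeval_X, MvPolynomial.aeval_C]
    rfl
  have h2 := DFunLike.congr_fun h f
  rw [AlgHom.comp_apply, MvPolynomial.aeval_eq_eval, MvPolynomial.aeval_eq_eval] at h2
  exact h2

/-- The restriction to the line through the identity in the direction `η`. -/
def lin (η : β → ℂ) : MvPolynomial β ℂ →ₐ[ℂ] Polynomial ℂ :=
  aeval (fun b => 1 + Polynomial.X * Polynomial.C (η b))

theorem line_res (hsum : ∑ b, ε b = 1) (g : A) (η : β → ℂ) (f : MvPolynomial σ ℂ) :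
    line e g (g * dg ε η) f = lin η (res e ε g f) := by
  have h : line e g (g * dg ε η) = (lin η).comp (res e ε g) := by
    apply MvPolynomial.algHom_ext
    intro i
    rw [AlgHom.comp_apply, res, aeval_X, map_sum]
    have h1 : ∀ b, lin η (C (e (g * ε b) i) * MvPolynomial.X b) =
        Polynomial.C (e (g * ε b) i * 1) + Polynomial.X * Polynomial.C (e (g * ε b) i * η b) := by
      intro b
      rw [map_mul]
      unfold lin
      rw [aeval_X, MvPolynomial.aeval_C, Polynomial.algebraMap_eq, Polynomial.C_mul,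
        Polynomial.C_mul, Polynomial.C_1]
      ring
    have h2 := sum_res e ε g (fun _ => (1 : ℂ)) i
    have h3 := sum_res e ε g η i
    rw [dg_one ε hsum, mul_one] at h2
    rw [Finset.sum_congr rfl fun b _ => h1 b, Finset.sum_add_distrib, ← Finset.mul_sum,
      ← map_sum, ← map_sum, h2, h3]
    unfold line
    rw [aeval_X]
  exact DFunLike.congr_fun h f

/-- The derivative at zero. -/
def d0 (p : Polynomial ℂ) : ℂ := (Polynomial.derivative p).eval 0

theorem d0_mul {p q : Polynomial ℂ} : d0 (p * q) = d0 p * q.eval 0 + p.eval 0 * d0 q := by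
  unfold d0
  rw [Polynomial.derivative_mul, Polynomial.eval_add, Polynomial.eval_mul, Polynomial.eval_mul]

theorem d0_pow {p : Polynomial ℂ} (hp : p.eval 0 = 1) (k : ℕ) : d0 (p ^ k) = k * d0 p := by
  induction k with
  | zero =>
    unfold d0
    simp
  | succ k ih =>
    rw [pow_succ, d0_mul, ih, hp, Polynomial.eval_pow, hp]
    push_cast
    ring

theorem d0_prod {ι : Type*} (s : Finset ι) (p : ι → Polynomial ℂ) (hp : ∀ i ∈ s, (p i).eval 0 = 1) :
    d0 (∏ i ∈ s, p i) = ∑ i ∈ s, d0 (p i) := by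
  classical
  induction s using Finset.induction_on with
  | empty =>
    unfold d0
    simp
  | insert a s ha ih =>
    rw [Finset.prod_insert ha, Finset.sum_insert ha, d0_mul,
      ih fun i hi => hp i (Finset.mem_insert_of_mem hi), hp a (Finset.mem_insert_self _ _),
      Polynomial.eval_prod, Finset.prod_eq_one fun i hi => hp i (Finset.mem_insert_of_mem hi)]
    ring

theorem d0_lin (η : β → ℂ) (F : MvPolynomial β ℂ) :
    d0 (lin η F) = ∑ m ∈ F.support, F.coeff m * ∑ b, (m b : ℂ) * η b := by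
  have h1 : lin η F = ∑ m ∈ F.support, Polynomial.C (F.coeff m) *
      ∏ b, (1 + Polynomial.X * Polynomial.C (η b)) ^ m b := by
    unfold lin
    rw [aeval_def, eval₂_eq']
    rfl
  have h2 : d0 (∑ m ∈ F.support, Polynomial.C (F.coeff m) *
      ∏ b, (1 + Polynomial.X * Polynomial.C (η b)) ^ m b) =
      ∑ m ∈ F.support, d0 (Polynomial.C (F.coeff m) *
      ∏ b, (1 + Polynomial.X * Polynomial.C (η b)) ^ m b) := by
    unfold d0
    rw [map_sum, Polynomial.eval_finsetSum]
  rw [h1, h2]
  refine Finset.sum_congr rfl fun m _ => ?_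
  have hone : ∀ b, (1 + Polynomial.X * Polynomial.C (η b) : Polynomial ℂ).eval 0 = 1 := by
    intro b
    simp
  have hd : ∀ b, d0 (1 + Polynomial.X * Polynomial.C (η b)) = η b := by
    intro b
    unfold d0
    simp
  rw [d0_mul, d0_prod _ _ (fun b _ => by rw [Polynomial.eval_pow, hone, one_pow])]
  have h3 : d0 (Polynomial.C (F.coeff m)) = 0 := by
    unfold d0
    simp
  rw [h3, zero_mul, zero_add, Polynomial.eval_C]
  congr 1
  refine Finset.sum_congr rfl fun b _ => ?_
  rw [d0_pow (hone b), hd]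

/-- **Diagonalisable elements.** If `∑ Λ_b ε_b` acts on the group by right multiplication, and the
numbers `η_b` satisfy all additive relations corresponding to the multiplicative relations of the
numbers `Λ_b`, then `∑ η_b ε_b` lies in the Lie algebra. -/
theorem diag_mem {S : Set A} (horth : ∀ b b', ε b * ε b' = if b = b' then ε b else 0)
    (hsum : ∑ b, ε b = 1) (Λ η : β → ℂ) (hS : ∀ g ∈ S, g * dg ε Λ ∈ S)
    (hcomp : ∀ m m' : β → ℕ, ∏ b, Λ b ^ m b = ∏ b, Λ b ^ m' b →
      ∑ b, (m b : ℂ) * η b = ∑ b, (m' b : ℂ) * η b) : dg ε η ∈ Tan e S := by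
  rw [mem_Tan]
  intro f hf g hg
  unfold dv
  rw [line_res e ε hsum]
  change d0 (lin η (res e ε g f)) = 0
  rw [d0_lin]
  have hk : ∀ k : ℕ, g * dg ε Λ ^ k ∈ S := by
    intro k
    induction k with
    | zero =>
      rw [pow_zero, mul_one]
      exact hg
    | succ k ih =>
      rw [pow_succ, ← mul_assoc]
      exact hS _ ih
  refine sum_interp _ _ (fun m => ∏ b, Λ b ^ m b) _ ?_ ?_
  · intro k
    have h1 := hf _ (hk k)
    rw [dg_pow ε horth hsum, ← eval_res, eval_eq'] at h1
    rw [← h1]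
    refine Finset.sum_congr rfl fun m _ => ?_
    congr 1
    rw [← Finset.prod_pow]
    refine Finset.prod_congr rfl fun b _ => ?_
    rw [← pow_mul, ← pow_mul, mul_comm]
  · intro m _ m' _ h
    exact hcomp (fun b => m b) (fun b => m' b) h

/-- Integral relations and rational combinations of them. -/
theorem span_rel {β : Type*} [Fintype β] (Λ : β → ℂ) (x : β → ℚ)
    (hx : x ∈ Submodule.span ℚ {y : β → ℚ | ∃ l : β → ℤ, (∏ b, Λ b ^ l b = 1) ∧
      y = fun b => (l b : ℚ)}) (hΛ : ∀ b, Λ b ≠ 0) :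
    ∃ (N : ℕ) (l : β → ℤ), 0 < N ∧ (∏ b, Λ b ^ l b = 1) ∧ ∀ b, (N : ℚ) * x b = l b := by
  induction hx using Submodule.span_induction with
  | mem x h =>
    obtain ⟨l, hl, rfl⟩ := h
    exact ⟨1, l, one_pos, hl, fun b => by push_cast; ring⟩
  | zero => exact ⟨1, 0, one_pos, by simp, fun b => by simp⟩
  | add x y _ _ hx hy =>
    obtain ⟨N, l, hN, hl, h1⟩ := hx
    obtain ⟨N', l', hN', hl', h2⟩ := hy
    refine ⟨N * N', fun b => N' * l b + N * l' b, Nat.mul_pos hN hN', ?_, fun b => ?_⟩
    · have h3 : ∀ b, Λ b ^ ((N' : ℤ) * l b + N * l' b) =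
          (Λ b ^ l b) ^ (N' : ℤ) * (Λ b ^ l' b) ^ (N : ℤ) := by
        intro b
        rw [zpow_add₀ (hΛ b), mul_comm (N' : ℤ), mul_comm (N : ℤ), zpow_mul, zpow_mul]
      rw [Finset.prod_congr rfl fun b _ => h3 b, Finset.prod_mul_distrib, Finset.prod_zpow,
        Finset.prod_zpow, hl, hl', one_zpow, one_zpow, one_mul]
    · push_cast
      rw [Pi.add_apply]
      linear_combination (N' : ℚ) * h1 b + (N : ℚ) * h2 b
  | smul q x _ hx =>
    obtain ⟨N, l, hN, hl, h1⟩ := hx
    refine ⟨N * q.den, fun b => q.num * l b, Nat.mul_pos hN q.den_pos, ?_, fun b => ?_⟩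
    · have h3 : ∀ b, Λ b ^ (q.num * l b) = (Λ b ^ l b) ^ q.num := by
        intro b
        rw [mul_comm, zpow_mul]
      rw [Finset.prod_congr rfl fun b _ => h3 b, Finset.prod_zpow, hl, one_zpow]
    · rw [Pi.smul_apply, smul_eq_mul]
      push_cast
      have h4 : (q.den : ℚ) * q = q.num := by
        rw [mul_comm]
        exact Rat.mul_den_eq_num q
      linear_combination (q.num : ℚ) * h1 b + (N : ℚ) * x b * h4

/-- If `Λ b₁ / Λ b₂` is not a root of unity, there are numbers satisfying all additive relations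
corresponding to the multiplicative relations of the numbers `Λ_b`, different for `b₁` and `b₂`. -/
theorem exists_log {β : Type*} [Fintype β] [DecidableEq β] (Λ : β → ℂ) (hΛ : ∀ b, Λ b ≠ 0)
    (b₁ b₂ : β) (hroot : ∀ N : ℕ, 0 < N → Λ b₁ ^ N ≠ Λ b₂ ^ N) :
    ∃ η : β → ℂ, η b₁ ≠ η b₂ ∧ ∀ m m' : β → ℕ, ∏ b, Λ b ^ m b = ∏ b, Λ b ^ m' b →
      ∑ b, (m b : ℂ) * η b = ∑ b, (m' b : ℂ) * η b := by
  let p : Submodule ℚ (β → ℚ) := Submodule.span ℚ {y : β → ℚ | ∃ l : β → ℤ,
    (∏ b, Λ b ^ l b = 1) ∧ y = fun b => (l b : ℚ)}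
  have hne : b₁ ≠ b₂ := by
    rintro rfl
    exact hroot 1 one_pos rfl
  have hv : (Pi.single b₁ 1 - Pi.single b₂ 1 : β → ℚ) ∉ p := by
    intro h
    obtain ⟨N, l, hN, hl, h1⟩ := span_rel Λ _ h hΛ
    apply hroot N hN
    have h2 : ∀ b, l b = if b = b₁ then (N : ℤ) else if b = b₂ then -(N : ℤ) else 0 := by
      intro b
      have h3 := h1 b
      rw [Pi.sub_apply, Pi.single_apply, Pi.single_apply] at h3
      by_cases hb : b = b₁
      · subst hb
        rw [if_pos rfl]
        rw [if_pos rfl, if_neg hne] at h3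
        have : ((N : ℤ) : ℚ) = (l b : ℚ) := by
          rw [← h3]
          push_cast
          ring
        exact_mod_cast this.symm
      · rw [if_neg hb]
        rw [if_neg hb] at h3
        by_cases hb2 : b = b₂
        · subst hb2
          rw [if_pos rfl]
          rw [if_pos rfl] at h3
          have : ((-(N : ℤ) : ℤ) : ℚ) = (l b : ℚ) := by
            rw [← h3]
            push_cast
            ring
          exact_mod_cast this.symm
        · rw [if_neg hb2]
          rw [if_neg hb2] at h3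
          have : ((0 : ℤ) : ℚ) = (l b : ℚ) := by
            rw [← h3]
            push_cast
            ring
          exact_mod_cast this.symm
    have h4 : ∏ b, Λ b ^ l b = Λ b₁ ^ (N : ℤ) * Λ b₂ ^ (-(N : ℤ)) := by
      have h5 : ∀ b, Λ b ^ l b = (if b = b₁ then Λ b₁ ^ (N : ℤ) else 1) *
          (if b = b₂ then Λ b₂ ^ (-(N : ℤ)) else 1) := by
        intro b
        rw [h2 b]
        by_cases hb : b = b₁
        · subst hb
          rw [if_pos rfl, if_pos rfl, if_neg hne, mul_one]
        · rw [if_neg hb, if_neg hb, one_mul]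
          by_cases hb2 : b = b₂
          · subst hb2
            rw [if_pos rfl, if_pos rfl]
          · rw [if_neg hb2, if_neg hb2, zpow_zero]
      rw [Finset.prod_congr rfl fun b _ => h5 b, Finset.prod_mul_distrib,
        Finset.prod_ite_eq' Finset.univ b₁ (fun _ => Λ b₁ ^ (N : ℤ)),
        Finset.prod_ite_eq' Finset.univ b₂ (fun _ => Λ b₂ ^ (-(N : ℤ))), if_pos (Finset.mem_univ _),
        if_pos (Finset.mem_univ _)]
    rw [h4, zpow_neg, zpow_natCast, zpow_natCast,
      mul_inv_eq_one₀ (pow_ne_zero _ (hΛ b₂))] at hl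
    exact hl
  obtain ⟨φ, hφv, hφ⟩ := Submodule.exists_le_ker_of_notMem hv
  refine ⟨fun b => ((φ (Pi.single b 1) : ℚ) : ℂ), ?_, ?_⟩
  · intro h
    apply hφv
    rw [map_sub, sub_eq_zero]
    have h' : ((φ (Pi.single b₁ 1) : ℚ) : ℂ) = ((φ (Pi.single b₂ 1) : ℚ) : ℂ) := h
    exact_mod_cast h'
  · intro m m' h
    have h1 : (fun b => (((m b : ℤ) - (m' b : ℤ) : ℤ) : ℚ)) ∈ p := by
      refine Submodule.subset_span ⟨fun b => (m b : ℤ) - (m' b : ℤ), ?_, rfl⟩
      have h2 : ∀ b, Λ b ^ ((m b : ℤ) - (m' b : ℤ)) = Λ b ^ m b / Λ b ^ m' b := by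
        intro b
        rw [zpow_sub₀ (hΛ b), zpow_natCast, zpow_natCast]
      rw [Finset.prod_congr rfl fun b _ => h2 b, Finset.prod_div_distrib, h, div_self]
      exact Finset.prod_ne_zero_iff.2 fun b _ => pow_ne_zero _ (hΛ b)
    have h2 := hφ h1
    rw [LinearMap.mem_ker] at h2
    have h3 : (fun b => (((m b : ℤ) - (m' b : ℤ) : ℤ) : ℚ)) =
        ∑ b, (((m b : ℤ) - (m' b : ℤ) : ℤ) : ℚ) • (Pi.single b 1 : β → ℚ) := by
      funext b
      rw [Finset.sum_apply, Finset.sum_eq_single b]
      · rw [Pi.smul_apply, Pi.single_eq_same, smul_eq_mul, mul_one]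
      · intro c _ hc
        rw [Pi.smul_apply, Pi.single_eq_of_ne hc.symm, smul_zero]
      · intro hc
        exact (hc (Finset.mem_univ _)).elim
    rw [h3, map_sum] at h2
    simp only [map_smul, smul_eq_mul] at h2
    have h4 : ((∑ b, (((m b : ℤ) - (m' b : ℤ) : ℤ) : ℚ) * φ (Pi.single b 1) : ℚ) : ℂ) = 0 := by
      rw [h2]
      exact Rat.cast_zero
    push_cast at h4
    rw [← sub_eq_zero, ← Finset.sum_sub_distrib, ← h4]
    refine Finset.sum_congr rfl fun b _ => ?_
    ring

end

end Pool.Agent.W446.GP
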