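import Pool.Agent.W446.GP.KS

/-!
# Generic algebraic points
-/

set_option linter.unusedSectionVars false
set_option linter.unusedVariables false

namespace Pool.Agent.W446.GP

open MvPolynomial

noncomputable section

variable {R J : Type} [Fintype R] [Fintype J] [DecidableEq R] [DecidableEq J]

/-- The polar form of the determinant. -/
def BB (a b : Matrix (Fin 2) (Fin 2) ℂ) : ℂ :=
  a 1 1 * b 0 0 - a 0 1 * b 1 0 - a 1 0 * b 0 1 + a 0 0 * b 1 1

theorem BB_mul (a s : Matrix (Fin 2) (Fin 2) ℂ) : BB a (a * s) = a.det * s.trace := by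
  unfold BB
  rw [Matrix.det_fin_two, Matrix.trace_fin_two]
  simp only [Matrix.mul_apply, Fin.sum_univ_two]
  ring

theorem BB_self (a : Matrix (Fin 2) (Fin 2) ℂ) : BB a a = 2 * a.det := by
  unfold BB
  rw [Matrix.det_fin_two]
  ring

theorem BB_indep {x : Alg R J}
    (hind : LinearIndependent Qb fun t : J × Fin 2 × Fin 2 => x.2 t.1 t.2.1 t.2.2)
    (M : J → Matrix (Fin 2) (Fin 2) Qb)
    (h : ∑ j, BB (Matrix.of fun a b => (M j a b : ℂ)) (x.2 j) = 0) (j : J) (a b : Fin 2) :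
    M j a b = 0 := by
  let g : J × Fin 2 × Fin 2 → Qb := fun t =>
    !![M t.1 1 1, -M t.1 1 0; -M t.1 0 1, M t.1 0 0] t.2.1 t.2.2
  have h1 : ∀ t, g t = 0 := by
    apply Fintype.linearIndependent_iff.1 hind g
    rw [Fintype.sum_prod_type, ← h]
    refine Finset.sum_congr rfl fun j _ => ?_
    rw [Fintype.sum_prod_type, Fin.sum_univ_two, Fin.sum_univ_two, Fin.sum_univ_two]
    simp only [g, BB, Matrix.of_apply, Matrix.cons_val', Matrix.cons_val_zero, Matrix.cons_val_one,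
      Matrix.cons_val_fin_one, Algebra.smul_def, neg_mul, map_neg]
    have hc : ∀ c : Qb, algebraMap Qb ℂ c = (c : ℂ) := fun c => rfl
    rw [hc, hc, hc, hc]
    ring
  have h00 := h1 (j, 0, 0)
  have h01 := h1 (j, 0, 1)
  have h10 := h1 (j, 1, 0)
  have h11 := h1 (j, 1, 1)
  simp only [g, Matrix.of_apply, Matrix.cons_val', Matrix.cons_val_zero, Matrix.cons_val_one,
    Matrix.cons_val_fin_one, neg_eq_zero] at h00 h01 h10 h11
  fin_cases a <;> fin_cases b
  · exact h11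
  · exact h10
  · exact h01
  · exact h00

theorem BB_indep_one {x : Alg R J}
    (hind : LinearIndependent Qb fun t : J × Fin 2 × Fin 2 => x.2 t.1 t.2.1 t.2.2)
    (i : J) (m : Matrix (Fin 2) (Fin 2) Qb)
    (h : BB (Matrix.of fun a b => (m a b : ℂ)) (x.2 i) = 0) (a b : Fin 2) : m a b = 0 := by
  have h1 := BB_indep hind (Pi.single i m) ?_ i a b
  · rwa [Pi.single_eq_same] at h1
  · rw [Finset.sum_eq_single i, Pi.single_eq_same, h]
    · intro j _ hj
      rw [Pi.single_eq_of_ne hj]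
      simp [BB]
    · intro h
      exact (h (Finset.mem_univ _)).elim

theorem BB_indep_two {x : Alg R J}
    (hind : LinearIndependent Qb fun t : J × Fin 2 × Fin 2 => x.2 t.1 t.2.1 t.2.2)
    (i j : J) (hij : i ≠ j) (m m' : Matrix (Fin 2) (Fin 2) Qb)
    (h : BB (Matrix.of fun a b => (m a b : ℂ)) (x.2 i) +
      BB (Matrix.of fun a b => (m' a b : ℂ)) (x.2 j) = 0) (a b : Fin 2) : m a b = 0 := by
  have h1 := BB_indep hind (Pi.single i m + Pi.single j m') ?_ i a b
  · rwa [Pi.add_apply, Pi.single_eq_same, Pi.single_eq_of_ne hij, add_zero] at h1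
  · rw [Finset.sum_eq_add i j hij, Pi.add_apply, Pi.add_apply, Pi.single_eq_same,
      Pi.single_eq_same, Pi.single_eq_of_ne hij, Pi.single_eq_of_ne hij.symm, add_zero, zero_add, h]
    · intro l _ hl
      rw [Pi.add_apply, Pi.single_eq_of_ne hl.1, Pi.single_eq_of_ne hl.2]
      simp [BB]
    · intro h
      exact (h (Finset.mem_univ _)).elim
    · intro h
      exact (h (Finset.mem_univ _)).elim

theorem det_pt (k : Crd R J → Qb) (i : J) :
    ((pt k).2 i).det = ((k (Sum.inr (i, 0, 0)) * k (Sum.inr (i, 1, 1)) -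
      k (Sum.inr (i, 0, 1)) * k (Sum.inr (i, 1, 0)) : Qb) : ℂ) := by
  rw [Matrix.det_fin_two]
  push_cast
  rfl

theorem exists_disc {x : Alg R J} (hx : Reg x)
    (hind : LinearIndependent Qb fun t : J × Fin 2 × Fin 2 => x.2 t.1 t.2.1 t.2.2) (i : J) :
    ∃ k ∈ ZK x, Reg (pt k) ∧
      BB ((pt k).2 i) (x.2 i) ^ 2 ≠ 4 * ((pt k).2 i).det * (x.2 i).det := by
  by_contra hcon
  push Not at hcon
  obtain ⟨k₁, hk₁, hreg₁, -⟩ := density hx 1 (by rw [map_one]; exact one_ne_zero)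
  have hB₁ : BB ((pt k₁).2 i) (x.2 i) ≠ 0 := by
    intro h
    have h1 := hcon k₁ hk₁ hreg₁
    rw [h] at h1
    have h2 : 4 * ((pt k₁).2 i).det * (x.2 i).det ≠ 0 :=
      mul_ne_zero (mul_ne_zero (by norm_num) (hreg₁.2 i)) (hx.2 i)
    apply h2
    rw [← h1]
    ring
  have hprop : ∀ k ∈ ZK x, Reg (pt k) → ∃ β : Qb, ∀ a b,
      k (Sum.inr (i, a, b)) = β * k₁ (Sum.inr (i, a, b)) := by
    intro k hk hreg
    have h1 := hcon k hk hreg
    have h2 := hcon k₁ hk₁ hreg₁
    have h3 : (BB ((pt k).2 i) (x.2 i) / BB ((pt k₁).2 i) (x.2 i)) ^ 2 ∈ Qb := by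
      have h4 : (BB ((pt k).2 i) (x.2 i) / BB ((pt k₁).2 i) (x.2 i)) ^ 2 =
          ((pt k).2 i).det / ((pt k₁).2 i).det := by
        rw [div_pow, h1, h2]
        have h5 := hreg₁.2 i
        have h6 := hx.2 i
        field_simp
      rw [h4, det_pt, det_pt]
      exact Qb.div_mem (Subtype.mem _) (Subtype.mem _)
    have h4 := mem_of_pow two_pos h3
    refine ⟨⟨_, h4⟩, ?_⟩
    intro a b
    have h5 := BB_indep_one hind i (Matrix.of fun a b => k (Sum.inr (i, a, b)) -
      (⟨_, h4⟩ : Qb) * k₁ (Sum.inr (i, a, b))) ?_ a b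
    · exact sub_eq_zero.1 h5
    · have h6 : BB ((pt k).2 i) (x.2 i) - BB ((pt k).2 i) (x.2 i) / BB ((pt k₁).2 i) (x.2 i) *
          BB ((pt k₁).2 i) (x.2 i) = 0 := by
        rw [div_mul_cancel₀ _ hB₁, sub_self]
      rw [← h6]
      generalize BB ((pt k).2 i) (x.2 i) / BB ((pt k₁).2 i) (x.2 i) = c at h4 ⊢
      unfold BB
      simp only [Matrix.of_apply, pt_snd]
      push_cast
      ring
  obtain ⟨a₀, b₀, hab⟩ : ∃ a b, k₁ (Sum.inr (i, a, b)) ≠ 0 := by
    by_contra h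
    push Not at h
    apply hreg₁.2 i
    rw [det_pt, h, h, h, h]
    simp
  let f : MvPolynomial (Crd R J) Qb := C (k₁ (Sum.inr (i, a₀, b₀))) * X (Sum.inr (i, a₀ + 1, b₀)) -
    C (k₁ (Sum.inr (i, a₀ + 1, b₀))) * X (Sum.inr (i, a₀, b₀))
  have hne : (i, a₀ + 1, b₀) ≠ (i, a₀, b₀) := by
    intro h
    have h1 := (Prod.mk.inj (Prod.mk.inj h).2).1
    revert h1
    fin_cases a₀ <;> decide
  have hf : aeval (crd x) f ≠ 0 := by
    intro h
    apply hab
    have h1 := Fintype.linearIndependent_iff.1 hind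
      (Pi.single (i, a₀ + 1, b₀) (k₁ (Sum.inr (i, a₀, b₀))) -
        Pi.single (i, a₀, b₀) (k₁ (Sum.inr (i, a₀ + 1, b₀)))) ?_ (i, a₀ + 1, b₀)
    · rwa [Pi.sub_apply, Pi.single_eq_same, Pi.single_eq_of_ne hne, sub_zero] at h1
    · rw [← h]
      simp only [Pi.sub_apply, sub_smul, Finset.sum_sub_distrib, Pi.single_apply, ite_smul,
        zero_smul, Finset.sum_ite_eq', Finset.mem_univ, if_true, f, map_sub, map_mul, aeval_X,
        aeval_C]
      rw [Algebra.smul_def, Algebra.smul_def]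
      rfl
  obtain ⟨k, hk, hreg, hkf⟩ := density hx f hf
  obtain ⟨β, hβ⟩ := hprop k hk hreg
  apply hkf
  simp only [f, map_sub, map_mul, aeval_X, aeval_C, hβ]
  change k₁ (Sum.inr (i, a₀, b₀)) * _ - k₁ (Sum.inr (i, a₀ + 1, b₀)) * _ = 0
  ring

/-- A generic point for the first choice. -/
theorem exists_first {x : Alg R J} (hx : Reg x)
    (hind : LinearIndependent Qb fun t : J × Fin 2 × Fin 2 => x.2 t.1 t.2.1 t.2.2) :
    ∃ k ∈ ZK x, Reg (pt k) ∧ ∀ i,
      BB ((pt k).2 i) (x.2 i) ^ 2 ≠ 4 * ((pt k).2 i).det * (x.2 i).det := by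
  let F : J → MvPolynomial (Crd R J) ℂ := fun i =>
    (X (Sum.inr (i, 1, 1)) * C (x.2 i 0 0) - X (Sum.inr (i, 0, 1)) * C (x.2 i 1 0) -
      X (Sum.inr (i, 1, 0)) * C (x.2 i 0 1) + X (Sum.inr (i, 0, 0)) * C (x.2 i 1 1)) ^ 2 -
      C 4 * (X (Sum.inr (i, 0, 0)) * X (Sum.inr (i, 1, 1)) -
        X (Sum.inr (i, 0, 1)) * X (Sum.inr (i, 1, 0))) * C (x.2 i).det
  have hF : ∀ (k : Crd R J → Qb) i, eval (fun i => (k i : ℂ)) (F i) =
      BB ((pt k).2 i) (x.2 i) ^ 2 - 4 * ((pt k).2 i).det * (x.2 i).det := by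
    intro k i
    simp only [F, map_sub, map_add, map_mul, map_pow, eval_X, eval_C, BB, pt_snd]
    rw [Matrix.det_fin_two (pt k |>.2 i)]
    simp only [pt_snd]
  obtain ⟨k, hk, hreg, h⟩ := generic hx F (by
    intro i
    obtain ⟨k, hk, hreg, h⟩ := exists_disc hx hind i
    refine ⟨k, hk, ?_⟩
    rw [hF]
    exact sub_ne_zero.2 h)
  refine ⟨k, hk, hreg, fun i => ?_⟩
  have := h i
  rw [hF] at this
  exact sub_ne_zero.1 this

/-- A generic point for the second choice. -/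
theorem exists_second {x : Alg R J} (hx : Reg x)
    (hind : LinearIndependent Qb fun t : J × Fin 2 × Fin 2 => x.2 t.1 t.2.1 t.2.2)
    (Q P : J → Matrix (Fin 2) (Fin 2) ℂ) (hQ : ∀ j, (Q j).det ≠ 0) (hP : ∀ j, (P j).det ≠ 0) :
    ∃ k ∈ ZK x, Reg (pt k) ∧ ∀ i a b, (Q i * (pt k).2 i * P i) a b ≠ 0 := by
  let co : J × Fin 2 × Fin 2 → J × Fin 2 × Fin 2 → ℂ := fun u =>
    fun t => if t.1 = u.1 then Q u.1 u.2.1 t.2.1 * P u.1 t.2.2 u.2.2 else 0
  have hco : ∀ u, co u ≠ 0 := by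
    rintro ⟨i, a, b⟩ h
    have h1 : ∀ c d, Q i a c * P i d b = 0 := by
      intro c d
      have h2 := congrFun h (i, c, d)
      simpa [co] using h2
    have h2 : ∃ c, Q i a c ≠ 0 := by
      by_contra h3
      push Not at h3
      exact hQ i (Matrix.det_eq_zero_of_row_eq_zero a h3)
    have h3 : ∃ d, P i d b ≠ 0 := by
      by_contra h3
      push Not at h3
      exact hP i (Matrix.det_eq_zero_of_column_eq_zero b h3)
    obtain ⟨c, hc⟩ := h2
    obtain ⟨d, hd⟩ := h3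
    exact mul_ne_zero hc hd (h1 c d)
  have hev : ∀ (k : Crd R J → Qb) i a b, eval (fun i => (k i : ℂ))
      (lf (co (i, a, b)) : MvPolynomial (Crd R J) ℂ) = (Q i * (pt k).2 i * P i) a b := by
    intro k i a b
    unfold lf
    rw [map_sum, Fintype.sum_prod_type, Finset.sum_eq_single i]
    · rw [Fintype.sum_prod_type]
      simp only [Fin.sum_univ_two, Matrix.mul_apply, map_mul, eval_C, eval_X, co, if_true, pt_snd]
      ring
    · intro j _ hj
      refine Finset.sum_eq_zero fun t _ => ?_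
      simp [co, hj]
    · intro h
      exact (h (Finset.mem_univ _)).elim
  obtain ⟨k, hk, hreg, h⟩ := generic hx
    (fun u : J × Fin 2 × Fin 2 => (lf (co u) : MvPolynomial (Crd R J) ℂ)) (by
      intro u
      obtain ⟨k, hk, hreg, h⟩ := exists_lf hx hind (co u) (hco u)
      exact ⟨k, hk, h⟩)
  refine ⟨k, hk, hreg, fun i a b => ?_⟩
  rw [← hev]
  exact h (i, a, b)

/-- Diagonalisation of a matrix with two different eigenvalues. -/
theorem exists_diag (s : Matrix (Fin 2) (Fin 2) ℂ) (h : s.trace ^ 2 ≠ 4 * s.det) :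
    ∃ (P P' : Matrix (Fin 2) (Fin 2) ℂ) (lam : Fin 2 → ℂ), P * P' = 1 ∧ P' * P = 1 ∧
      P' * s * P = Matrix.diagonal lam ∧ lam 0 ≠ lam 1 ∧ lam 0 + lam 1 = s.trace ∧
      lam 0 * lam 1 = s.det := by
  obtain ⟨d, hd⟩ := IsAlgClosed.exists_pow_nat_eq (s.trace ^ 2 - 4 * s.det) two_pos
  have hd0 : d ≠ 0 := by
    rintro rfl
    apply h
    rw [← sub_eq_zero, ← hd]
    ring
  let lam : Fin 2 → ℂ := ![(s.trace + d) / 2, (s.trace - d) / 2]
  have hl0 : lam 0 = (s.trace + d) / 2 := rfl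
  have hl1 : lam 1 = (s.trace - d) / 2 := rfl
  have hv : ∀ i, ∃ v : Fin 2 → ℂ, v ≠ 0 ∧ (s - lam i • (1 : Matrix (Fin 2) (Fin 2) ℂ)).mulVec v = 0 := by
    intro i
    have h1 : (s - lam i • (1 : Matrix (Fin 2) (Fin 2) ℂ)).det = 0 := by
      rw [Matrix.det_fin_two]
      simp only [Matrix.sub_apply, Matrix.smul_apply, Matrix.one_apply_eq, smul_eq_mul, mul_one]
      rw [Matrix.one_apply_ne (by decide), Matrix.one_apply_ne (by decide)]
      rw [Matrix.trace_fin_two, Matrix.det_fin_two] at hd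
      fin_cases i
      · change (s 0 0 - lam 0) * (s 1 1 - lam 0) - (s 0 1 - lam 0 * 0) * (s 1 0 - lam 0 * 0) = 0
        rw [hl0, Matrix.trace_fin_two]
        linear_combination (1 / 4) * hd
      · change (s 0 0 - lam 1) * (s 1 1 - lam 1) - (s 0 1 - lam 1 * 0) * (s 1 0 - lam 1 * 0) = 0
        rw [hl1, Matrix.trace_fin_two]
        linear_combination (1 / 4) * hd
    exact (Matrix.exists_mulVec_eq_zero_iff).2 h1
  choose v hv0 hv using hv
  let P : Matrix (Fin 2) (Fin 2) ℂ := Matrix.of fun a b => v b a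
  have hsP : s * P = P * Matrix.diagonal lam := by
    ext a b
    rw [Matrix.mul_diagonal]
    have h1 := congrFun (hv b) a
    rw [Matrix.sub_mulVec, Pi.sub_apply, Matrix.smul_mulVec, Matrix.one_mulVec, Pi.smul_apply,
      smul_eq_mul, Pi.zero_apply, sub_eq_zero] at h1
    change (s.mulVec (v b)) a = v b a * lam b
    rw [h1, mul_comm]
  have hdet : P.det ≠ 0 := by
    intro h0
    obtain ⟨c, hc0, hc⟩ := Matrix.exists_mulVec_eq_zero_iff.2 h0
    have h1 : (P * Matrix.diagonal lam).mulVec c = 0 := by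
      rw [← hsP, ← Matrix.mulVec_mulVec, hc, Matrix.mulVec_zero]
    have h2 : ∀ a, v 0 a * c 0 + v 1 a * c 1 = 0 := by
      intro a
      have := congrFun hc a
      rw [Matrix.mulVec, dotProduct, Fin.sum_univ_two] at this
      exact this
    have h3 : ∀ a, v 0 a * lam 0 * c 0 + v 1 a * lam 1 * c 1 = 0 := by
      intro a
      have := congrFun h1 a
      rw [Matrix.mulVec, dotProduct, Fin.sum_univ_two, Matrix.mul_diagonal,
        Matrix.mul_diagonal] at this
      exact this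
    apply hc0
    obtain ⟨a0, ha0⟩ := Function.ne_iff.1 (hv0 0)
    obtain ⟨a1, ha1⟩ := Function.ne_iff.1 (hv0 1)
    have hdl : lam 0 - lam 1 = d := by
      rw [hl0, hl1]
      ring
    have h4 : c 0 = 0 := by
      have h5 : d * (v 0 a0 * c 0) = 0 := by
        rw [← hdl]
        linear_combination h3 a0 - lam 1 * h2 a0
      exact (mul_eq_zero.1 ((mul_eq_zero.1 h5).resolve_left hd0)).resolve_left ha0
    have h5 : c 1 = 0 := by
      have h5 : d * (v 1 a1 * c 1) = 0 := by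
        rw [← hdl]
        linear_combination lam 0 * h2 a1 - h3 a1
      exact (mul_eq_zero.1 ((mul_eq_zero.1 h5).resolve_left hd0)).resolve_left ha1
    funext i
    fin_cases i
    · exact h4
    · exact h5
  have hu : IsUnit P.det := isUnit_iff_ne_zero.2 hdet
  refine ⟨P, P⁻¹, lam, Matrix.mul_nonsing_inv P hu, Matrix.nonsing_inv_mul P hu, ?_, ?_, ?_, ?_⟩
  · rw [Matrix.mul_assoc, hsP, ← Matrix.mul_assoc, Matrix.nonsing_inv_mul P hu, one_mul]
  · intro h1
    apply hd0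
    rw [hl0, hl1] at h1
    linear_combination h1
  · rw [hl0, hl1]
    ring
  · rw [hl0, hl1]
    linear_combination (-1 / 4) * hd

end

end Pool.Agent.W446.GP
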