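import Pool.Agent.W446.GP.Diag
import Pool.Agent.W446.GP.Defs

/-!
# Closed subgroups of `(ℂ^×)^R × GL_2(ℂ)^J` containing `SL_2(ℂ)^J`
-/

set_option linter.unusedSectionVars false
set_option linter.unusedVariables false

namespace Pool.Agent.W446.GP

open MvPolynomial

noncomputable section

variable {R J : Type} [Fintype R] [Fintype J] [DecidableEq R] [DecidableEq J]

/-- The coordinates as a linear equivalence. -/
def crdE : Alg R J ≃ₗ[ℂ] (Crd R J → ℂ) where
  toFun := crd
  map_add' := by
    intro a b
    funext i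
    rcases i with r | t <;> rfl
  map_smul' := by
    intro c a
    funext i
    rcases i with r | t <;> rfl
  invFun x := (fun r => x (Sum.inl r), fun j => Matrix.of fun k l => x (Sum.inr (j, k, l)))
  left_inv := by
    intro a
    rfl
  right_inv := by
    intro x
    funext i
    rcases i with r | t <;> rfl

theorem crdE_inl (a : Alg R J) (r : R) : crdE a (Sum.inl r) = a.1 r := rfl

theorem crdE_inr (a : Alg R J) (j : J) (k l : Fin 2) :
    crdE a (Sum.inr (j, k, l)) = a.2 j k l := rfl

theorem crdE_symm_fst (x : Crd R J → ℂ) (r : R) :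
    (crdE.symm x : Alg R J).1 r = x (Sum.inl r) := rfl

theorem crdE_symm_snd (x : Crd R J → ℂ) (j : J) (k l : Fin 2) :
    (crdE.symm x : Alg R J).2 j k l = x (Sum.inr (j, k, l)) := rfl

/-- The idempotents of the diagonal. -/
def idm : R ⊕ (J × Fin 2) → Alg R J :=
  Sum.elim (fun r => (Pi.single r 1, 0))
    (fun t => (0, Pi.single t.1 (Matrix.diagonal (Pi.single t.2 1))))

theorem idm_orth (b b' : R ⊕ (J × Fin 2)) :
    idm b * idm b' = if b = b' then (idm b : Alg R J) else 0 := by
  rcases b with r | ⟨j, k⟩ <;> rcases b' with r' | ⟨j', k'⟩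
  · by_cases h : r = r'
    · subst h
      rw [if_pos rfl]
      simp only [idm, Sum.elim_inl, Prod.mk_mul_mk, mul_zero]
      congr 1
      rw [← Pi.single_mul, mul_one]
    · rw [if_neg (by simpa using h)]
      simp only [idm, Sum.elim_inl, Prod.mk_mul_mk, mul_zero]
      have : (Pi.single r 1 * Pi.single r' 1 : R → ℂ) = 0 := by
        funext a
        rw [Pi.mul_apply, Pi.zero_apply, Pi.single_apply, Pi.single_apply]
        by_cases ha : a = r
        · subst ha
          rw [if_neg h, mul_zero]
        · rw [if_neg ha, zero_mul]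
      rw [this]
      rfl
  · rw [if_neg (by simp)]
    simp only [idm, Sum.elim_inl, Sum.elim_inr, Prod.mk_mul_mk, mul_zero, zero_mul]
    rfl
  · rw [if_neg (by simp)]
    simp only [idm, Sum.elim_inl, Sum.elim_inr, Prod.mk_mul_mk, mul_zero, zero_mul]
    rfl
  · by_cases hj : j = j'
    · subst hj
      by_cases hk : k = k'
      · subst hk
        rw [if_pos rfl]
        simp only [idm, Sum.elim_inr, Prod.mk_mul_mk, mul_zero]
        congr 1
        rw [← Pi.single_mul, Matrix.diagonal_mul_diagonal]
        congr 2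
        funext a
        rw [Pi.single_apply]
        split_ifs <;> simp
      · rw [if_neg (by simpa using hk)]
        simp only [idm, Sum.elim_inr, Prod.mk_mul_mk, mul_zero]
        have h1 : (fun i => (Pi.single k 1 : Fin 2 → ℂ) i * (Pi.single k' 1 : Fin 2 → ℂ) i) = 0 := by
          funext a
          rw [Pi.zero_apply, Pi.single_apply, Pi.single_apply]
          by_cases ha : a = k
          · subst ha
            rw [if_neg hk, mul_zero]
          · rw [if_neg ha, zero_mul]
        have h2 : (Matrix.diagonal (0 : Fin 2 → ℂ) : Matrix (Fin 2) (Fin 2) ℂ) = 0 :=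
          Matrix.diagonal_zero
        rw [← Pi.single_mul, Matrix.diagonal_mul_diagonal, h1, h2, Pi.single_zero]
        rfl
    · rw [if_neg (by
        intro h
        apply hj
        have := Sum.inr_injective h
        exact (Prod.mk.inj this).1)]
      simp only [idm, Sum.elim_inr, Prod.mk_mul_mk, mul_zero]
      have : (Pi.single j (Matrix.diagonal (Pi.single k 1)) *
          Pi.single j' (Matrix.diagonal (Pi.single k' 1)) : J → Matrix (Fin 2) (Fin 2) ℂ) = 0 := by
        funext a
        rw [Pi.mul_apply, Pi.zero_apply]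
        by_cases ha : a = j
        · subst ha
          rw [Pi.single_eq_of_ne hj, mul_zero]
        · rw [Pi.single_eq_of_ne ha, zero_mul]
      rw [this]
      rfl

theorem dg_idm (x : R ⊕ (J × Fin 2) → ℂ) :
    dg (idm : _ → Alg R J) x =
      (fun r => x (Sum.inl r), fun j => Matrix.diagonal fun k => x (Sum.inr (j, k))) := by
  unfold dg
  rw [Fintype.sum_sum_type]
  refine Prod.ext ?_ ?_
  · rw [Prod.fst_add, Prod.fst_sum, Prod.fst_sum]
    funext r
    rw [Pi.add_apply, Finset.sum_apply, Finset.sum_apply, Finset.sum_eq_single r]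
    · simp [idm]
    · intro b _ hb
      simp [idm, hb.symm]
    · intro h
      exact (h (Finset.mem_univ _)).elim
  · rw [Prod.snd_add, Prod.snd_sum, Prod.snd_sum]
    funext j
    rw [Pi.add_apply, Finset.sum_apply, Finset.sum_apply, Fintype.sum_prod_type,
      Finset.sum_eq_single j]
    · rw [Fin.sum_univ_two]
      ext k l
      fin_cases k <;> fin_cases l <;> simp [idm]
    · intro b _ hb
      refine Finset.sum_eq_zero fun k _ => ?_
      simp [idm, hb.symm]
    · intro h
      exact (h (Finset.mem_univ _)).elim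

theorem sum_idm : ∑ b, (idm b : Alg R J) = 1 := by
  have h := dg_idm (R := R) (J := J) (fun _ => 1)
  unfold dg at h
  simp only [one_smul] at h
  rw [h]
  refine Prod.ext ?_ ?_
  · rfl
  · funext j
    simp

/-- The set of elements of the algebra lying in a group of units. -/
def coeS (G : Subgroup (Alg R J)ˣ) : Set (Alg R J) := {a | ∃ g ∈ G, (g : Alg R J) = a}

theorem mul_mem_coeS {G : Subgroup (Alg R J)ˣ} {s : (Alg R J)ˣ} (hs : s ∈ G) :
    ∀ g ∈ coeS G, g * (s : Alg R J) ∈ coeS G := by
  rintro _ ⟨g, hg, rfl⟩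
  exact ⟨g * s, G.mul_mem hg hs, by simp⟩

theorem conj_mem' {G : Subgroup (Alg R J)ˣ} {s : (Alg R J)ˣ} (hs : s ∈ G) {X : Alg R J}
    (hX : X ∈ Tan crdE (coeS G)) : (s : Alg R J) * X * ((s⁻¹ : (Alg R J)ˣ) : Alg R J) ∈
      Tan crdE (coeS G) :=
  conj_mem crdE (by simp) (mul_mem_coeS hs) (mul_mem_coeS (G.inv_mem hs)) hX

/-- **Weight vectors.** A subspace stable under an operator which is diagonal in the coordinates
contains the coordinate vector of a weight of multiplicity one occurring in one of its elements. -/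
theorem weight {A : Type*} [AddCommGroup A] [Module ℂ A] {σ : Type*} [Fintype σ] [DecidableEq σ]
    (e : A ≃ₗ[ℂ] (σ → ℂ)) (V : Submodule ℂ A) (ρ : σ → ℂ) (L : A → A)
    (hL : ∀ X ∈ V, L X ∈ V) (hLe : ∀ X t, e (L X) t = ρ t * e X t) (t₀ : σ)
    (hρ : ∀ t, t ≠ t₀ → ρ t ≠ ρ t₀) {X : A} (hX : X ∈ V) (h0 : e X t₀ ≠ 0) :
    e.symm (Pi.single t₀ 1) ∈ V := by
  have key : ∀ F : Finset σ, t₀ ∉ F → ∃ Y ∈ V, e Y t₀ ≠ 0 ∧ ∀ t ∈ F, e Y t = 0 := by
    intro F
    induction F using Finset.induction_on with
    | empty => exact fun _ => ⟨X, hX, h0, fun t ht => (Finset.notMem_empty t ht).elim⟩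
    | insert a F ha ih =>
      intro h
      obtain ⟨Y, hY, hY0, hYF⟩ := ih fun h' => h (Finset.mem_insert_of_mem h')
      have hat : a ≠ t₀ := by
        rintro rfl
        exact h (Finset.mem_insert_self _ _)
      refine ⟨L Y - ρ a • Y, V.sub_mem (hL Y hY) (V.smul_mem _ hY), ?_, ?_⟩
      · rw [map_sub, Pi.sub_apply, hLe, map_smul, Pi.smul_apply, smul_eq_mul, ← sub_mul]
        exact mul_ne_zero (sub_ne_zero.2 (hρ a hat).symm) hY0
      · intro t ht
        rw [map_sub, Pi.sub_apply, hLe, map_smul, Pi.smul_apply, smul_eq_mul, ← sub_mul]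
        rcases Finset.mem_insert.1 ht with rfl | ht
        · rw [sub_self, zero_mul]
        · rw [hYF t ht, mul_zero]
  obtain ⟨Y, hY, hY0, hYF⟩ := key (Finset.univ.erase t₀) (Finset.notMem_erase _ _)
  have h1 : e.symm (Pi.single t₀ 1) = (e Y t₀)⁻¹ • Y := by
    rw [LinearEquiv.symm_apply_eq, map_smul]
    funext t
    rw [Pi.smul_apply, smul_eq_mul]
    by_cases ht : t = t₀
    · subst ht
      rw [Pi.single_eq_same, inv_mul_cancel₀ hY0]
    · rw [Pi.single_eq_of_ne ht, hYF t (Finset.mem_erase.2 ⟨ht, Finset.mem_univ _⟩), mul_zero]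
  rw [h1]
  exact V.smul_mem _ hY

/-- The unipotent units. -/
def unip (v : Alg R J) (hv : v * v = 0) : (Alg R J)ˣ where
  val := 1 + v
  inv := 1 - v
  val_inv := by
    rw [mul_sub, mul_one, add_mul, one_mul, hv, add_zero, add_sub_cancel_right]
  inv_val := by
    rw [mul_add, mul_one, sub_mul, one_mul, hv, sub_zero, sub_add_cancel]

/-- The embedding of `2 × 2` matrices of determinant one in the unit group, at the place `j`. -/
def emb (j : J) (m : Matrix (Fin 2) (Fin 2) ℂ) (hm : m.det = 1) : (Alg R J)ˣ where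
  val := (1, Function.update 1 j m)
  inv := (1, Function.update 1 j m.adjugate)
  val_inv := by
    refine Prod.ext (by simp) ?_
    funext i
    by_cases h : i = j
    · subst h
      simp [Matrix.mul_adjugate, hm]
    · simp [Function.update_of_ne h]
  inv_val := by
    refine Prod.ext (by simp) ?_
    funext i
    by_cases h : i = j
    · subst h
      simp [Matrix.adjugate_mul, hm]
    · simp [Function.update_of_ne h]

theorem emb_mul (j : J) (m m' : Matrix (Fin 2) (Fin 2) ℂ) (hm : m.det = 1) (hm' : m'.det = 1) :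
    (emb j (m * m') (by rw [Matrix.det_mul, hm, hm', one_mul]) : (Alg R J)ˣ) =
      emb j m hm * emb j m' hm' := by
  apply Units.ext
  refine Prod.ext (by simp [emb]) ?_
  funext i
  by_cases h : i = j
  · subst h
    simp [emb]
  · simp [emb, Function.update_of_ne h]

/-- The matrices of determinant one are generated by the elementary matrices. -/
theorem sl2_gen (p : Matrix (Fin 2) (Fin 2) ℂ → Prop)
    (h01 : ∀ t : ℂ, p !![1, t; 0, 1]) (h10 : ∀ t : ℂ, p !![1, 0; t, 1])
    (hmul : ∀ m m', m.det = 1 → m'.det = 1 → p m → p m' → p (m * m'))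
    (m : Matrix (Fin 2) (Fin 2) ℂ) (hm : m.det = 1) : p m := by
  have h1 : ∀ m : Matrix (Fin 2) (Fin 2) ℂ, m.det = 1 → m 1 0 ≠ 0 → p m := by
    intro m hm hc
    rw [Matrix.det_fin_two] at hm
    have h2 : m = !![1, (m 0 0 - 1) / m 1 0; 0, 1] * !![1, 0; m 1 0, 1] *
        !![1, (m 1 1 - 1) / m 1 0; 0, 1] := by
      have h3 : m 0 1 = (m 0 0 * m 1 1 - 1) / m 1 0 := by
        field_simp
        linear_combination -hm
      ext k l
      fin_cases k <;> fin_cases l <;> simp [Matrix.mul_apply, Fin.sum_univ_two, h3] <;>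
        field_simp <;> ring
    rw [h2]
    apply hmul
    · rw [Matrix.det_mul, Matrix.det_fin_two_of, Matrix.det_fin_two_of]
      ring
    · rw [Matrix.det_fin_two_of]
      ring
    · apply hmul
      · rw [Matrix.det_fin_two_of]
        ring
      · rw [Matrix.det_fin_two_of]
        ring
      · exact h01 _
      · exact h10 _
    · exact h01 _
  by_cases hc : m 1 0 = 0
  · have ha : m 0 0 ≠ 0 := by
      intro h
      rw [Matrix.det_fin_two, h, hc] at hm
      simp at hm
    have h2 : m = !![1, 0; -1, 1] * (!![1, 0; 1, 1] * m) := by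
      rw [← Matrix.mul_assoc]
      have : (!![1, 0; -1, 1] * !![1, 0; 1, 1] : Matrix (Fin 2) (Fin 2) ℂ) = 1 := by
        ext k l
        fin_cases k <;> fin_cases l <;> simp [Matrix.mul_apply, Fin.sum_univ_two]
      rw [this, one_mul]
    have h3 : (!![1, 0; 1, 1] * m).det = 1 := by
      rw [Matrix.det_mul, Matrix.det_fin_two_of, hm]
      ring
    rw [h2]
    apply hmul
    · rw [Matrix.det_fin_two_of]
      ring
    · exact h3
    · exact h10 _
    · apply h1 _ h3
      simp [Matrix.mul_apply, Fin.sum_univ_two, hc, ha]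
  · exact h1 m hm hc

/-- **Groups containing `SL_2(ℂ)^J`.** -/
theorem sl2_mem (G : Subgroup (Alg R J)ˣ)
    (hcl : ∀ u : (Alg R J)ˣ, (∀ F, Van crdE (coeS G) F → ev crdE (u : Alg R J) F = 0) → u ∈ G)
    (s : (Alg R J)ˣ) (hs : s ∈ G) (lam : J → Fin 2 → ℂ)
    (hsd : ∀ j, (s : Alg R J).2 j = Matrix.diagonal (lam j))
    (hroot : ∀ j, ∀ n : ℕ, 0 < n → lam j 0 ^ n ≠ lam j 1 ^ n)
    (hdist : ∀ i j, i ≠ j → lam i 0 * lam j 1 ≠ lam i 1 * lam j 0 ∧
      lam i 0 * lam j 0 ≠ lam i 1 * lam j 1)
    (w : (Alg R J)ˣ) (hw : w ∈ G) (hw' : ∀ j k l, (w : Alg R J).2 j k l ≠ 0)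
    (u : (Alg R J)ˣ) (hu1 : (u : Alg R J).1 = 1) (hu2 : ∀ j, ((u : Alg R J).2 j).det = 1) :
    u ∈ G := by
  have hlam : ∀ j k, lam j k ≠ 0 := by
    intro j k h
    have h1 : (s : Alg R J).2 j * ((s⁻¹ : (Alg R J)ˣ) : Alg R J).2 j = 1 := by
      have h2 : ((s : Alg R J) * ((s⁻¹ : (Alg R J)ˣ) : Alg R J)).2 j = 1 := by
        rw [Units.mul_inv]
        rfl
      exact h2
    rw [hsd] at h1
    have h2 := congrFun (congrFun h1 k) k
    rw [Matrix.diagonal_mul, h, zero_mul, Matrix.one_apply_eq] at h2
    exact zero_ne_one h2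
  have hs1 : ∀ r, (s : Alg R J).1 r ≠ 0 := by
    intro r h
    have h2 : ((s : Alg R J) * ((s⁻¹ : (Alg R J)ˣ) : Alg R J)).1 r = 1 := by
      rw [Units.mul_inv]
      rfl
    rw [Prod.fst_mul, Pi.mul_apply, h, zero_mul] at h2
    exact zero_ne_one h2
  -- the coordinates of the inverse of `s`
  have hsinv : ∀ j, ((s⁻¹ : (Alg R J)ˣ) : Alg R J).2 j =
      Matrix.diagonal fun k => (lam j k)⁻¹ := by
    intro j
    have h1 : (s : Alg R J).2 j * ((s⁻¹ : (Alg R J)ˣ) : Alg R J).2 j = 1 := by
      have h2 : ((s : Alg R J) * ((s⁻¹ : (Alg R J)ˣ) : Alg R J)).2 j = 1 := by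
        rw [Units.mul_inv]
        rfl
      exact h2
    rw [hsd] at h1
    have h3 : (Matrix.diagonal fun k => (lam j k)⁻¹) * Matrix.diagonal (lam j) = 1 := by
      rw [Matrix.diagonal_mul_diagonal, ← Matrix.diagonal_one]
      congr 1
      funext k
      exact inv_mul_cancel₀ (hlam j k)
    calc ((s⁻¹ : (Alg R J)ˣ) : Alg R J).2 j = ((Matrix.diagonal fun k => (lam j k)⁻¹) *
        Matrix.diagonal (lam j)) * ((s⁻¹ : (Alg R J)ˣ) : Alg R J).2 j := by rw [h3, one_mul]
      _ = _ := by rw [Matrix.mul_assoc, h1, mul_one]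
  have hsinv1 : ∀ r, ((s⁻¹ : (Alg R J)ˣ) : Alg R J).1 r = ((s : Alg R J).1 r)⁻¹ := by
    intro r
    have h2 : ((s : Alg R J) * ((s⁻¹ : (Alg R J)ˣ) : Alg R J)).1 r = 1 := by
      rw [Units.mul_inv]
      rfl
    rw [Prod.fst_mul, Pi.mul_apply] at h2
    exact eq_inv_of_mul_eq_one_right h2
  -- the weights
  let ρ : Crd R J → ℂ := Sum.elim (fun _ => 1) (fun t => lam t.1 t.2.1 * (lam t.1 t.2.2)⁻¹)
  let L : Alg R J → Alg R J := fun X => (s : Alg R J) * X * ((s⁻¹ : (Alg R J)ˣ) : Alg R J)
  have hLe : ∀ X t, crdE (L X) t = ρ t * crdE X t := by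
    intro X t
    rcases t with r | ⟨j, k, l⟩
    · rw [crdE_inl, crdE_inl]
      change (s : Alg R J).1 r * X.1 r * ((s⁻¹ : (Alg R J)ˣ) : Alg R J).1 r = 1 * X.1 r
      rw [hsinv1]
      field_simp [hs1 r]
    · rw [crdE_inr, crdE_inr]
      change ((s : Alg R J).2 j * X.2 j * ((s⁻¹ : (Alg R J)ˣ) : Alg R J).2 j) k l =
        lam j k * (lam j l)⁻¹ * X.2 j k l
      rw [hsinv, hsd, Matrix.mul_diagonal, Matrix.diagonal_mul]
      ring
  -- for each place, an element of the Lie algebra
  have hY : ∀ j, ∃ X ∈ Tan crdE (coeS G), X.2 j 0 1 ≠ 0 ∧ X.2 j 1 0 ≠ 0 := by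
    intro j
    let Λ : R ⊕ (J × Fin 2) → ℂ := Sum.elim (s : Alg R J).1 (fun t => lam t.1 t.2)
    have hΛ : ∀ b, Λ b ≠ 0 := by
      rintro (r | t)
      · exact hs1 r
      · exact hlam _ _
    have hsΛ : dg (idm : _ → Alg R J) Λ = (s : Alg R J) := by
      rw [dg_idm]
      refine Prod.ext rfl ?_
      funext i
      rw [hsd]
      rfl
    obtain ⟨η, hη, hrel⟩ := exists_log Λ hΛ (Sum.inr (j, 0)) (Sum.inr (j, 1)) (hroot j)
    have hmem : dg (idm : _ → Alg R J) η ∈ Tan crdE (coeS G) := by
      refine diag_mem crdE idm idm_orth sum_idm Λ η ?_ hrel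
      rw [hsΛ]
      exact mul_mem_coeS hs
    refine ⟨_, conj_mem' hw hmem, ?_⟩
    rw [dg_idm]
    set w' : Alg R J := ((w⁻¹ : (Alg R J)ˣ) : Alg R J) with hw'def
    have h1 : (w : Alg R J).2 j * w'.2 j = 1 := by
      have h2 : ((w : Alg R J) * w').2 j = 1 := by
        rw [hw'def, Units.mul_inv]
        rfl
      exact h2
    have h00 := congrFun (congrFun h1 0) 0
    have h01 := congrFun (congrFun h1 0) 1
    have h10 := congrFun (congrFun h1 1) 0
    have h11 := congrFun (congrFun h1 1) 1
    rw [Matrix.mul_apply, Fin.sum_univ_two] at h00 h01 h10 h11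
    simp only [Matrix.one_apply_eq, ne_eq, zero_ne_one, one_ne_zero, not_false_eq_true,
      Matrix.one_apply_ne] at h00 h01 h10 h11
    have hne01 : w'.2 j 0 1 ≠ 0 := by
      intro h
      rw [h, mul_zero, zero_add] at h01
      rw [(mul_eq_zero.1 h01).resolve_left (hw' j 0 1), h] at h11
      simp at h11
    have hne10 : w'.2 j 1 0 ≠ 0 := by
      intro h
      rw [h, mul_zero, add_zero] at h10
      rw [(mul_eq_zero.1 h10).resolve_left (hw' j 1 0), h] at h00
      simp at h00
    have hcomp : ∀ k l, ((w : Alg R J) * (fun r => η (Sum.inl r), fun j =>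
        Matrix.diagonal fun k => η (Sum.inr (j, k))) * w').2 j k l =
        (w : Alg R J).2 j k 0 * η (Sum.inr (j, 0)) * w'.2 j 0 l +
        (w : Alg R J).2 j k 1 * η (Sum.inr (j, 1)) * w'.2 j 1 l := by
      intro k l
      change ((w : Alg R J).2 j * (Matrix.diagonal fun k => η (Sum.inr (j, k))) * w'.2 j) k l = _
      rw [Matrix.mul_apply, Fin.sum_univ_two, Matrix.mul_diagonal, Matrix.mul_diagonal]
    rw [hcomp, hcomp]
    constructor
    · have h5 : (w : Alg R J).2 j 0 0 * η (Sum.inr (j, 0)) * w'.2 j 0 1 +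
          (w : Alg R J).2 j 0 1 * η (Sum.inr (j, 1)) * w'.2 j 1 1 =
          (η (Sum.inr (j, 0)) - η (Sum.inr (j, 1))) * ((w : Alg R J).2 j 0 0 * w'.2 j 0 1) := by
        linear_combination η (Sum.inr (j, 1)) * h01
      rw [h5]
      exact mul_ne_zero (sub_ne_zero.2 hη) (mul_ne_zero (hw' j 0 0) hne01)
    · have h5 : (w : Alg R J).2 j 1 0 * η (Sum.inr (j, 0)) * w'.2 j 0 0 +
          (w : Alg R J).2 j 1 1 * η (Sum.inr (j, 1)) * w'.2 j 1 0 =
          (η (Sum.inr (j, 1)) - η (Sum.inr (j, 0))) * ((w : Alg R J).2 j 1 1 * w'.2 j 1 0) := by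
        linear_combination η (Sum.inr (j, 0)) * h10
      rw [h5]
      exact mul_ne_zero (sub_ne_zero.2 hη.symm) (mul_ne_zero (hw' j 1 1) hne10)
  -- the root vectors are in the Lie algebra
  have hroots : ∀ j, ∀ k l : Fin 2, k ≠ l →
      (crdE.symm (Pi.single (Sum.inr (j, k, l)) 1) : Alg R J) ∈ Tan crdE (coeS G) := by
    intro j k l hkl
    obtain ⟨X, hX, hX01, hX10⟩ := hY j
    refine weight crdE _ ρ L (fun X hX => conj_mem' hs hX) hLe (Sum.inr (j, k, l)) ?_ hX ?_
    · have hr := hroot j 1 one_pos
      have hr2 := hroot j 2 two_pos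
      rw [pow_one, pow_one] at hr
      have hne : lam j k ≠ lam j l := by
        fin_cases k <;> fin_cases l
        · exact absurd rfl hkl
        · exact hr
        · exact hr.symm
        · exact absurd rfl hkl
      have hne2 : lam j k ^ 2 ≠ lam j l ^ 2 := by
        fin_cases k <;> fin_cases l
        · exact absurd rfl hkl
        · exact hr2
        · exact hr2.symm
        · exact absurd rfl hkl
      have hjl := hlam j l
      have hjk := hlam j k
      rintro (r | ⟨i, k', l'⟩) ht h
      · change (1 : ℂ) = lam j k * (lam j l)⁻¹ at h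
        apply hne
        field_simp at h
        exact h.symm
      · change lam i k' * (lam i l')⁻¹ = lam j k * (lam j l)⁻¹ at h
        have hil := hlam i l'
        have h' : lam i k' * lam j l = lam i l' * lam j k := by
          field_simp at h
          linear_combination h
        by_cases hkl' : k' = l'
        · subst hkl'
          exact hne.symm (mul_left_cancel₀ hil h')
        · by_cases hij : i = j
          · subst hij
            have : k' = l ∧ l' = k := by
              have hcases : (k' = k ∧ l' = l) ∨ (k' = l ∧ l' = k) := by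
                fin_cases k <;> fin_cases l <;> fin_cases k' <;> fin_cases l' <;> simp_all
              rcases hcases with ⟨rfl, rfl⟩ | h
              · exact absurd rfl ht
              · exact h
            rw [this.1, this.2] at h'
            exact hne2 (by linear_combination -h')
          · have h3 := hdist i j hij
            fin_cases k <;> fin_cases l <;> fin_cases k' <;> fin_cases l'
            all_goals first
              | exact absurd rfl hkl
              | exact absurd rfl hkl'
              | skip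
            · exact h3.1 h'
            · exact h3.2 (by simpa [mul_comm] using h'.symm)
            · exact h3.2 h'
            · exact h3.1 (by simpa [mul_comm] using h'.symm)
    · rw [crdE_inr]
      fin_cases k <;> fin_cases l
      · exact absurd rfl hkl
      · exact hX01
      · exact hX10
      · exact absurd rfl hkl
  have hunip : ∀ j, ∀ k l : Fin 2, k ≠ l → ∀ t : ℂ,
      (crdE.symm (Pi.single (Sum.inr (j, k, l)) t) : Alg R J) *
        crdE.symm (Pi.single (Sum.inr (j, k, l)) t) = 0 := by
    intro j k l hkl t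
    refine Prod.ext ?_ ?_
    · funext r
      simp [crdE_symm_fst]
    · funext i
      by_cases hij : i = j
      · subst hij
        ext a b
        rw [Prod.snd_mul, Pi.mul_apply, Matrix.mul_apply, Fin.sum_univ_two]
        simp only [crdE_symm_snd, Pi.single_apply]
        fin_cases k <;> fin_cases l <;> fin_cases a <;> fin_cases b <;>
          simp at hkl ⊢
      · ext a b
        rw [Prod.snd_mul, Pi.mul_apply, Matrix.mul_apply, Fin.sum_univ_two]
        simp only [crdE_symm_snd, Pi.single_apply]
        simp [hij]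
  have hmemG : ∀ j, ∀ k l : Fin 2, (hkl : k ≠ l) → ∀ t : ℂ,
      unip (crdE.symm (Pi.single (Sum.inr (j, k, l)) t)) (hunip j k l hkl t) ∈ G := by
    intro j k l hkl t
    apply hcl
    intro F hF
    have h1 : (crdE.symm (Pi.single (Sum.inr (j, k, l)) t) : Alg R J) ∈ Tan crdE (coeS G) := by
      have h2 : (crdE.symm (Pi.single (Sum.inr (j, k, l)) t) : Alg R J) =
          t • crdE.symm (Pi.single (Sum.inr (j, k, l)) 1) := by
        rw [← map_smul, ← Pi.single_smul, smul_eq_mul, mul_one]
      rw [h2]
      exact Submodule.smul_mem _ _ (hroots j k l hkl)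
    exact van_one_add crdE h1 (hunip j k l hkl t) ⟨1, G.one_mem, rfl⟩ hF
  have hemb : ∀ j, ∀ m : Matrix (Fin 2) (Fin 2) ℂ, (hm : m.det = 1) → emb j m hm ∈ G := by
    intro j m hm
    refine sl2_gen (fun m => ∀ hm : m.det = 1, emb j m hm ∈ G) ?_ ?_ ?_ m hm hm
    · intro t hm
      have h1 : emb j !![1, t; 0, 1] hm =
          unip (crdE.symm (Pi.single (Sum.inr (j, 0, 1)) t)) (hunip j 0 1 (by decide) t) := by
        apply Units.ext
        refine Prod.ext ?_ ?_
        · funext r
          simp [emb, unip, crdE_symm_fst]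
        · funext i
          by_cases hij : i = j
          · subst hij
            ext a b
            fin_cases a <;> fin_cases b <;> simp [emb, unip, crdE_symm_snd]
          · ext a b
            simp [emb, unip, crdE_symm_snd, hij]
      rw [h1]
      exact hmemG j 0 1 (by decide) t
    · intro t hm
      have h1 : emb j !![1, 0; t, 1] hm =
          unip (crdE.symm (Pi.single (Sum.inr (j, 1, 0)) t)) (hunip j 1 0 (by decide) t) := by
        apply Units.ext
        refine Prod.ext ?_ ?_
        · funext r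
          simp [emb, unip, crdE_symm_fst]
        · funext i
          by_cases hij : i = j
          · subst hij
            ext a b
            fin_cases a <;> fin_cases b <;> simp [emb, unip, crdE_symm_snd]
          · ext a b
            simp [emb, unip, crdE_symm_snd, hij]
      rw [h1]
      exact hmemG j 1 0 (by decide) t
    · intro m m' hm1 hm1' h h' hmm
      have := emb_mul (R := R) j m m' hm1 hm1'
      rw [this]
      exact G.mul_mem (h hm1) (h' hm1')
  -- products over the places
  have hprod : ∀ F : Finset J, ∀ u : (Alg R J)ˣ, (u : Alg R J).1 = 1 →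
      (∀ j, ((u : Alg R J).2 j).det = 1) → (∀ j, j ∉ F → (u : Alg R J).2 j = 1) → u ∈ G := by
    intro F
    induction F using Finset.induction_on with
    | empty =>
      intro u hu1 hu2 hu3
      have : u = 1 := by
        apply Units.ext
        refine Prod.ext hu1 ?_
        funext j
        exact hu3 j (Finset.notMem_empty _)
      rw [this]
      exact G.one_mem
    | insert a F ha ih =>
      intro u hu1 hu2 hu3
      have h1 := hemb a _ (hu2 a)
      have h2 : (emb a _ (hu2 a))⁻¹ * u ∈ G := by
        apply ih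
        · change (1 : R → ℂ) * (u : Alg R J).1 = 1
          rw [hu1, one_mul]
        · intro j
          change ((Function.update (1 : J → Matrix (Fin 2) (Fin 2) ℂ) a
            ((u : Alg R J).2 a).adjugate) j * (u : Alg R J).2 j).det = 1
          rw [Matrix.det_mul, hu2, mul_one]
          by_cases hj : j = a
          · subst hj
            rw [Function.update_self, Matrix.det_adjugate, hu2, one_pow]
          · rw [Function.update_of_ne hj, Pi.one_apply, Matrix.det_one]
        · intro j hj
          change (Function.update (1 : J → Matrix (Fin 2) (Fin 2) ℂ) a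
            ((u : Alg R J).2 a).adjugate) j * (u : Alg R J).2 j = 1
          by_cases hja : j = a
          · subst hja
            rw [Function.update_self, Matrix.adjugate_mul, hu2, one_smul]
          · rw [Function.update_of_ne hja, Pi.one_apply, one_mul]
            exact hu3 j (by
              rw [Finset.mem_insert]
              rintro (h | h)
              · exact hja h
              · exact hj h)
      have h3 : u = emb a _ (hu2 a) * ((emb a _ (hu2 a))⁻¹ * u) := by group
      rw [h3]
      exact G.mul_mem h1 h2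
  exact hprod Finset.univ u hu1 hu2 fun j hj => (hj (Finset.mem_univ _)).elim

end

end Pool.Agent.W446.GP
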