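import Pool.Agent.W446.GP.Grp

/-!
# Points with algebraic coordinates in the closure of a complex point
-/

set_option linter.unusedSectionVars false
set_option linter.unusedVariables false

namespace Pool.Agent.W446.GP

open MvPolynomial

noncomputable section

instance : IsAlgClosed Qb :=
  letI := algebraicClosure.isAlgClosure ℚ ℂ
  this.isAlgClosed

theorem mem_of_pow {c : ℂ} {n : ℕ} (hn : 0 < n) (h : c ^ n ∈ Qb) : c ∈ Qb :=
  mem_algebraicClosure_iff.2 ((mem_algebraicClosure_iff.1 h).of_pow hn)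

variable {R J : Type} [Fintype R] [Fintype J] [DecidableEq R] [DecidableEq J]

/-- The vectors with algebraic coordinates at which all polynomials with algebraic coefficients
vanishing at `x` vanish. -/
def ZK (x : Alg R J) : Set (Crd R J → Qb) :=
  {k | ∀ f : MvPolynomial (Crd R J) Qb, aeval (crd x) f = 0 → aeval k f = 0}

/-- The element with the given algebraic coordinates. -/
def pt (k : Crd R J → Qb) : Alg R J := crdE.symm fun i => (k i : ℂ)

theorem crd_pt (k : Crd R J → Qb) (i : Crd R J) : crd (pt k) i = (k i : ℂ) := by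
  rcases i with r | t <;> rfl

theorem pt_fst (k : Crd R J → Qb) (r : R) : (pt k).1 r = (k (Sum.inl r) : ℂ) := rfl

theorem pt_snd (k : Crd R J → Qb) (j : J) (a b : Fin 2) :
    (pt k).2 j a b = (k (Sum.inr (j, a, b)) : ℂ) := rfl

theorem aeval_pt (k : Crd R J → Qb) (f : MvPolynomial (Crd R J) Qb) :
    aeval (crd (pt k)) f = ((aeval k f : Qb) : ℂ) := by
  have h : (aeval (crd (pt k)) : MvPolynomial (Crd R J) Qb →ₐ[Qb] ℂ) =
      (Algebra.ofId Qb ℂ).comp (aeval k) := by
    apply MvPolynomial.algHom_ext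
    intro i
    rw [aeval_X, crd_pt, AlgHom.comp_apply, aeval_X]
    rfl
  rw [h]
  rfl

/-- Elements with nonzero coordinates and determinants. -/
def Reg (a : Alg R J) : Prop := (∀ r, a.1 r ≠ 0) ∧ ∀ j, (a.2 j).det ≠ 0

theorem reg_of_unit (u : (Alg R J)ˣ) : Reg (u : Alg R J) := by
  constructor
  · intro r h
    have h2 : ((u : Alg R J) * ((u⁻¹ : (Alg R J)ˣ) : Alg R J)).1 r = 1 := by
      rw [Units.mul_inv]
      rfl
    rw [Prod.fst_mul, Pi.mul_apply, h, zero_mul] at h2
    exact zero_ne_one h2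
  · intro j h
    have h2 : ((u : Alg R J) * ((u⁻¹ : (Alg R J)ˣ) : Alg R J)).2 j = 1 := by
      rw [Units.mul_inv]
      rfl
    have h3 := congrArg Matrix.det h2
    rw [Prod.snd_mul, Pi.mul_apply, Matrix.det_mul, h, zero_mul, Matrix.det_one] at h3
    exact zero_ne_one h3

/-- The unit defined by a regular element. -/
def toU (a : Alg R J) (h : Reg a) : (Alg R J)ˣ where
  val := a
  inv := (fun r => (a.1 r)⁻¹, fun j => (a.2 j).det⁻¹ • (a.2 j).adjugate)
  val_inv := by
    refine Prod.ext ?_ ?_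
    · funext r
      exact mul_inv_cancel₀ (h.1 r)
    · funext j
      change a.2 j * ((a.2 j).det⁻¹ • (a.2 j).adjugate) = 1
      rw [Matrix.mul_smul, Matrix.mul_adjugate, smul_smul, inv_mul_cancel₀ (h.2 j), one_smul]
  inv_val := by
    refine Prod.ext ?_ ?_
    · funext r
      exact inv_mul_cancel₀ (h.1 r)
    · funext j
      change ((a.2 j).det⁻¹ • (a.2 j).adjugate) * a.2 j = 1
      rw [Matrix.smul_mul, Matrix.adjugate_mul, smul_smul, inv_mul_cancel₀ (h.2 j), one_smul]

/-- The polynomial giving the determinant at the place `j`. -/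
def detP (j : J) : MvPolynomial (Crd R J) Qb :=
  X (Sum.inr (j, 0, 0)) * X (Sum.inr (j, 1, 1)) - X (Sum.inr (j, 0, 1)) * X (Sum.inr (j, 1, 0))

theorem aeval_detP (a : Alg R J) (j : J) : aeval (crd a) (detP j) = (a.2 j).det := by
  unfold detP
  rw [map_sub, map_mul, map_mul, aeval_X, aeval_X, aeval_X, aeval_X, Matrix.det_fin_two]
  rfl

/-- The product of the coordinates and of the determinants. -/
def regP : MvPolynomial (Crd R J) Qb := (∏ r : R, X (Sum.inl r)) * ∏ j : J, detP j

theorem aeval_regP (a : Alg R J) :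
    aeval (crd a) (regP : MvPolynomial (Crd R J) Qb) = (∏ r, a.1 r) * ∏ j, (a.2 j).det := by
  unfold regP
  rw [map_mul, map_prod, map_prod]
  congr 1
  · refine Finset.prod_congr rfl fun r _ => ?_
    rw [aeval_X]
    rfl
  · refine Finset.prod_congr rfl fun j _ => ?_
    rw [aeval_detP]

/-- **Density.** A polynomial with algebraic coefficients not vanishing at `x` does not vanish at
some regular point with algebraic coordinates of the closure of `x`. -/
theorem density {x : Alg R J} (hx : Reg x) (f : MvPolynomial (Crd R J) Qb)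
    (hf : aeval (crd x) f ≠ 0) : ∃ k ∈ ZK x, Reg (pt k) ∧ aeval k f ≠ 0 := by
  let I : Ideal (MvPolynomial (Crd R J) Qb) := RingHom.ker (aeval (crd x) :
    MvPolynomial (Crd R J) Qb →ₐ[Qb] ℂ)
  have hI : I.IsPrime := RingHom.ker_isPrime _
  have h1 : f * regP ∉ I := by
    intro h
    have h2 : aeval (crd x) (f * regP) = 0 := h
    rw [map_mul, aeval_regP] at h2
    rcases mul_eq_zero.1 h2 with h3 | h3
    · exact hf h3
    · rcases mul_eq_zero.1 h3 with h4 | h4
      · obtain ⟨r, _, hr⟩ := Finset.prod_eq_zero_iff.1 h4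
        exact hx.1 r hr
      · obtain ⟨j, _, hj⟩ := Finset.prod_eq_zero_iff.1 h4
        exact hx.2 j hj
  rw [← IsPrime.vanishingIdeal_zeroLocus (K := Qb) I, mem_vanishingIdeal_iff] at h1
  push Not at h1
  obtain ⟨k, hk, hk2⟩ := h1
  refine ⟨k, fun f hf => hk f hf, ?_, ?_⟩
  · have h2 : aeval (crd (pt k)) (regP : MvPolynomial (Crd R J) Qb) ≠ 0 := by
      rw [aeval_pt]
      intro h
      apply hk2
      rw [map_mul]
      have : aeval k (regP : MvPolynomial (Crd R J) Qb) = 0 := by exact_mod_cast h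
      rw [this, mul_zero]
    rw [aeval_regP] at h2
    have h3 := left_ne_zero_of_mul h2
    have h4 := right_ne_zero_of_mul h2
    exact ⟨fun r => Finset.prod_ne_zero_iff.1 h3 r (Finset.mem_univ _),
      fun j => Finset.prod_ne_zero_iff.1 h4 j (Finset.mem_univ _)⟩
  · intro h
    apply hk2
    rw [map_mul, h, zero_mul]

/-- Applying a linear functional to the coefficients of a polynomial. -/
def phi (φ : ℂ →ₗ[Qb] Qb) (F : MvPolynomial (Crd R J) ℂ) : MvPolynomial (Crd R J) Qb :=
  ∑ m ∈ F.support, monomial m (φ (F.coeff m))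

theorem aeval_phi (φ : ℂ →ₗ[Qb] Qb) (F : MvPolynomial (Crd R J) ℂ) (k : Crd R J → Qb) :
    aeval k (phi φ F) = φ (eval (fun i => (k i : ℂ)) F) := by
  unfold phi
  rw [map_sum, eval_eq', map_sum]
  refine Finset.sum_congr rfl fun m _ => ?_
  rw [aeval_monomial, Finsupp.prod_fintype _ _ (fun i => pow_zero _)]
  have h1 : F.coeff m * ∏ i, (k i : ℂ) ^ m i = (∏ i, k i ^ m i) • F.coeff m := by
    rw [Algebra.smul_def, map_prod, mul_comm]
    congr 1
  rw [h1, map_smul, smul_eq_mul, mul_comm]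
  rfl

/-- **Simultaneous choice.** -/
theorem generic {x : Alg R J} (hx : Reg x) {ι : Type*} [Fintype ι]
    (F : ι → MvPolynomial (Crd R J) ℂ)
    (hF : ∀ i, ∃ k ∈ ZK x, eval (fun i => (k i : ℂ)) (F i) ≠ 0) :
    ∃ k ∈ ZK x, Reg (pt k) ∧ ∀ i, eval (fun i => (k i : ℂ)) (F i) ≠ 0 := by
  choose k hk hkF using hF
  have h1 : ∀ i, ∃ φ : ℂ →ₗ[Qb] Qb, φ (eval (fun l => (k i l : ℂ)) (F i)) ≠ 0 := by
    intro i
    by_contra h
    push Not at h
    exact hkF i ((Module.forall_dual_apply_eq_zero_iff Qb _).1 h)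
  choose φ hφ using h1
  have h2 : aeval (crd x) (∏ i, phi (φ i) (F i)) ≠ 0 := by
    rw [map_prod]
    refine Finset.prod_ne_zero_iff.2 fun i _ h => ?_
    have h3 := hk i _ h
    rw [aeval_phi] at h3
    exact hφ i h3
  obtain ⟨k₀, hk₀, hreg, hne⟩ := density hx _ h2
  refine ⟨k₀, hk₀, hreg, fun i h => ?_⟩
  rw [map_prod] at hne
  apply Finset.prod_ne_zero_iff.1 hne i (Finset.mem_univ _)
  rw [aeval_phi, h, map_zero]

/-- A linear form in the entries of the matrices. -/
def lf (a : J × Fin 2 × Fin 2 → ℂ) : MvPolynomial (Crd R J) ℂ := ∑ t, C (a t) * X (Sum.inr t)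

/-- A linear form with algebraic coefficients. -/
def lfK (a : J × Fin 2 × Fin 2 → Qb) : MvPolynomial (Crd R J) Qb := ∑ t, C (a t) * X (Sum.inr t)

/-- A nonzero linear form does not vanish on the points with algebraic coordinates, if the entries
are linearly independent. -/
theorem exists_lf {x : Alg R J} (hx : Reg x)
    (hind : LinearIndependent Qb fun t : J × Fin 2 × Fin 2 => x.2 t.1 t.2.1 t.2.2)
    (a : J × Fin 2 × Fin 2 → ℂ) (ha : a ≠ 0) :
    ∃ k ∈ ZK x, Reg (pt k) ∧ eval (fun i => (k i : ℂ)) (lf a : MvPolynomial (Crd R J) ℂ) ≠ 0 := by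
  obtain ⟨t₀, ht₀⟩ := Function.ne_iff.1 ha
  obtain ⟨φ, hφ⟩ : ∃ φ : ℂ →ₗ[Qb] Qb, φ (a t₀) ≠ 0 := by
    by_contra h
    push Not at h
    exact ht₀ ((Module.forall_dual_apply_eq_zero_iff Qb _).1 h)
  have h1 : aeval (crd x) (lfK (fun t => φ (a t)) : MvPolynomial (Crd R J) Qb) ≠ 0 := by
    intro h
    apply hφ
    unfold lfK at h
    rw [map_sum] at h
    refine Fintype.linearIndependent_iff.1 hind (fun t => φ (a t)) ?_ t₀
    rw [← h]
    refine Finset.sum_congr rfl fun t _ => ?_
    rw [map_mul, aeval_X, aeval_C, Algebra.smul_def]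
    rfl
  obtain ⟨k, hk, hreg, hne⟩ := density hx _ h1
  refine ⟨k, hk, hreg, fun h => hne ?_⟩
  have h2 : aeval k (lfK (fun t => φ (a t)) : MvPolynomial (Crd R J) Qb) =
      φ (eval (fun i => (k i : ℂ)) (lf a : MvPolynomial (Crd R J) ℂ)) := by
    unfold lfK lf
    rw [map_sum, map_sum, map_sum]
    refine Finset.sum_congr rfl fun t _ => ?_
    rw [map_mul, map_mul, aeval_X, eval_X, eval_C, aeval_C]
    have h3 : a t * ((k (Sum.inr t) : Qb) : ℂ) = (k (Sum.inr t)) • a t := by
      rw [Algebra.smul_def, mul_comm]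
      rfl
    rw [h3, map_smul, smul_eq_mul, mul_comm]
    rfl
  rw [h2, h, map_zero]

end

end Pool.Agent.W446.GP
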