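import Mathlib

/-!
# The Lie algebra of a closed subgroup of the unit group of a finite dimensional algebra
-/

set_option linter.unusedSectionVars false
set_option linter.unusedVariables false

namespace Pool.Agent.W446.GP

open MvPolynomial

noncomputable section

variable {A : Type*} [Ring A] [Algebra ℂ A] {σ : Type*} [Fintype σ] [DecidableEq σ]
  (e : A ≃ₗ[ℂ] (σ → ℂ))

/-- The value of the polynomial `f` at the element `a` of the algebra. -/
def ev (a : A) (f : MvPolynomial σ ℂ) : ℂ := eval (e a) f

/-- The restriction of a polynomial to the line `a + t b`. -/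
def line (a b : A) : MvPolynomial σ ℂ →ₐ[ℂ] Polynomial ℂ :=
  aeval (fun i => Polynomial.C (e a i) + Polynomial.X * Polynomial.C (e b i))

/-- The derivative of the polynomial `f` at `a` in the direction `b`. -/
def dv (a b : A) (f : MvPolynomial σ ℂ) : ℂ := (Polynomial.derivative (line e a b f)).eval 0

/-- The basis of the algebra given by the coordinates. -/
def bas (k : σ) : A := e.symm (Pi.single k 1)

theorem sum_bas (a : A) : ∑ k, e a k • bas e k = a := by
  apply e.injective
  rw [map_sum]
  funext i
  rw [Finset.sum_apply, Finset.sum_eq_single i]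
  · rw [map_smul, bas, LinearEquiv.apply_symm_apply, Pi.smul_apply, Pi.single_eq_same, smul_eq_mul,
      mul_one]
  · intro b _ hb
    rw [map_smul, bas, LinearEquiv.apply_symm_apply, Pi.smul_apply, Pi.single_eq_of_ne hb.symm,
      smul_zero]
  · intro h
    exact (h (Finset.mem_univ _)).elim

theorem sum_bas_mul (a X : A) (i : σ) : ∑ k, e (bas e k * X) i * e a k = e (a * X) i := by
  conv_rhs => rw [← sum_bas e a, Finset.sum_mul, map_sum, Finset.sum_apply]
  refine Finset.sum_congr rfl fun k _ => ?_
  rw [smul_mul_assoc, map_smul, Pi.smul_apply, smul_eq_mul, mul_comm]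

/-- The invariant vector field defined by the element `X` of the algebra. -/
def der (X : A) : Derivation ℂ (MvPolynomial σ ℂ) (MvPolynomial σ ℂ) :=
  mkDerivation ℂ (fun i => ∑ k, C (e (bas e k * X) i) * MvPolynomial.X k)

theorem line_zero (a b : A) (f : MvPolynomial σ ℂ) : (line e a b f).eval 0 = ev e a f := by
  have h : (Polynomial.aeval (0 : ℂ)).comp (line e a b) = aeval (e a) := by
    apply MvPolynomial.algHom_ext
    intro i
    simp [line]
  have h2 := DFunLike.congr_fun h f
  simpa [ev, Polynomial.aeval_def, Polynomial.eval₂_eq_eval_map, MvPolynomial.aeval_eq_eval] using h2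

theorem ev_der (X a : A) (f : MvPolynomial σ ℂ) : ev e a (der e X f) = dv e a (a * X) f := by
  induction f using MvPolynomial.induction_on with
  | C r =>
    unfold ev dv der line
    simp
  | add p q hp hq =>
    have h1 : ev e a (der e X (p + q)) = ev e a (der e X p) + ev e a (der e X q) := by
      unfold ev
      rw [map_add, map_add]
    have h2 : dv e a (a * X) (p + q) = dv e a (a * X) p + dv e a (a * X) q := by
      unfold dv
      rw [map_add, map_add, Polynomial.eval_add]
    rw [h1, h2, hp, hq]
  | mul_X p i hp =>
    have h1 : ev e a (der e X (p * MvPolynomial.X i)) =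
        ev e a p * e (a * X) i + e a i * ev e a (der e X p) := by
      unfold ev
      rw [Derivation.leibniz, smul_eq_mul, smul_eq_mul, map_add, map_mul, map_mul]
      congr 2
      · unfold der
        rw [mkDerivation_X, map_sum, ← sum_bas_mul e a X i]
        refine Finset.sum_congr rfl fun k _ => ?_
        rw [map_mul, eval_C, eval_X]
      · rw [eval_X]
    have h2 : dv e a (a * X) (p * MvPolynomial.X i) =
        ev e a p * e (a * X) i + e a i * dv e a (a * X) p := by
      unfold dv
      rw [map_mul, Polynomial.derivative_mul, Polynomial.eval_add, Polynomial.eval_mul,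
        Polynomial.eval_mul, line_zero]
      have h3 : line e a (a * X) (MvPolynomial.X i) =
          Polynomial.C (e a i) + Polynomial.X * Polynomial.C (e (a * X) i) := by
        unfold line
        rw [aeval_X]
      have h4 : ev e a (MvPolynomial.X i) = e a i := by
        unfold ev
        rw [eval_X]
      rw [line_zero, h3, h4]
      simp only [Polynomial.derivative_add, Polynomial.derivative_C, Polynomial.derivative_mul,
        Polynomial.derivative_X, Polynomial.eval_add, Polynomial.eval_mul, Polynomial.eval_C,
        Polynomial.eval_one, Polynomial.eval_zero, Polynomial.eval_X]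
      ring
    rw [h1, h2, hp]

theorem der_add (X Y : A) : der e (X + Y) = der e X + der e Y := by
  apply MvPolynomial.derivation_ext
  intro i
  unfold der
  rw [Derivation.add_apply, mkDerivation_X, mkDerivation_X, mkDerivation_X,
    ← Finset.sum_add_distrib]
  refine Finset.sum_congr rfl fun k _ => ?_
  rw [mul_add, map_add, Pi.add_apply, C_add, add_mul]

theorem der_smul (c : ℂ) (X : A) : der e (c • X) = c • der e X := by
  apply MvPolynomial.derivation_ext
  intro i
  unfold der
  rw [Derivation.smul_apply, mkDerivation_X, mkDerivation_X, Finset.smul_sum]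
  refine Finset.sum_congr rfl fun k _ => ?_
  rw [mul_smul_comm, map_smul, Pi.smul_apply, smul_eq_mul, C_mul, mul_assoc, MvPolynomial.smul_eq_C_mul]

theorem der_der_X (X Y : A) (i : σ) : der e X (der e Y (MvPolynomial.X i)) =
    ∑ l, C (e (bas e l * (X * Y)) i) * MvPolynomial.X l := by
  have h1 : der e Y (MvPolynomial.X i) = ∑ k, C (e (bas e k * Y) i) * MvPolynomial.X k := by
    unfold der
    rw [mkDerivation_X]
  rw [h1, map_sum]
  have h2 : ∀ k, der e X (C (e (bas e k * Y) i) * MvPolynomial.X k) =
      ∑ l, C (e (bas e k * Y) i * e (bas e l * X) k) * MvPolynomial.X l := by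
    intro k
    rw [Derivation.leibniz]
    have h3 : der e X (C (e (bas e k * Y) i)) = 0 := by
      have := (der e X).map_algebraMap (e (bas e k * Y) i)
      rwa [MvPolynomial.algebraMap_eq] at this
    rw [h3, smul_zero, add_zero, smul_eq_mul]
    unfold der
    rw [mkDerivation_X, Finset.mul_sum]
    refine Finset.sum_congr rfl fun l _ => ?_
    rw [C_mul, mul_assoc]
  rw [Finset.sum_congr rfl fun k _ => h2 k, Finset.sum_comm]
  refine Finset.sum_congr rfl fun l _ => ?_
  rw [← Finset.sum_mul, ← map_sum]
  congr 2
  rw [← mul_assoc, ← sum_bas_mul e (bas e l * X) Y i]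

theorem der_bracket (X Y : A) (f : MvPolynomial σ ℂ) :
    der e X (der e Y f) - der e Y (der e X f) = der e (X * Y - Y * X) f := by
  have h : ⁅der e X, der e Y⁆ = der e (X * Y - Y * X) := by
    apply MvPolynomial.derivation_ext
    intro i
    rw [Derivation.commutator_apply, der_der_X, der_der_X, ← Finset.sum_sub_distrib]
    unfold der
    rw [mkDerivation_X]
    refine Finset.sum_congr rfl fun l _ => ?_
    rw [mul_sub, map_sub, Pi.sub_apply, C_sub, sub_mul]
  rw [← h, Derivation.commutator_apply]

variable (S : Set A)

/-- The polynomial vanishes on the set `S`. -/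
def Van (f : MvPolynomial σ ℂ) : Prop := ∀ g ∈ S, ev e g f = 0

/-- The Lie algebra of `S`: the elements whose invariant vector field is tangent to `S`. -/
def Tan : Submodule ℂ A where
  carrier := {X | ∀ f, Van e S f → Van e S (der e X f)}
  zero_mem' := by
    intro f _ g _
    have h : der e (0 : A) = 0 := by
      have := der_smul e 0 (0 : A)
      rwa [zero_smul, zero_smul] at this
    rw [h]
    unfold ev
    rw [Derivation.zero_apply, map_zero]
  add_mem' := by
    intro X Y hX hY f hf g hg
    have h1 := hX f hf g hg
    have h2 := hY f hf g hg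
    unfold ev at *
    rw [der_add, Derivation.add_apply, map_add, h1, h2, add_zero]
  smul_mem' := by
    intro c X hX f hf g hg
    have h1 := hX f hf g hg
    unfold ev at *
    rw [der_smul, Derivation.smul_apply, MvPolynomial.smul_eval, h1, mul_zero]

theorem mem_Tan {X : A} : X ∈ Tan e S ↔ ∀ f, Van e S f → ∀ g ∈ S, dv e g (g * X) f = 0 := by
  constructor
  · intro h f hf g hg
    rw [← ev_der]
    exact h f hf g hg
  · intro h f hf g hg
    rw [ev_der]
    exact h f hf g hg

theorem bracket_mem {X Y : A} (hX : X ∈ Tan e S) (hY : Y ∈ Tan e S) :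
    X * Y - Y * X ∈ Tan e S := by
  intro f hf g hg
  rw [← der_bracket]
  have h1 := hX _ (hY f hf) g hg
  have h2 := hY _ (hX f hf) g hg
  unfold ev at *
  rw [map_sub, h1, h2, sub_zero]

/-- Translation of polynomials. -/
def tr (v : A) : MvPolynomial σ ℂ →ₐ[ℂ] MvPolynomial σ ℂ :=
  aeval (fun i => ∑ k, C (e (bas e k * v) i) * MvPolynomial.X k)

theorem ev_tr (v a : A) (f : MvPolynomial σ ℂ) : ev e a (tr e v f) = ev e (a * v) f := by
  have h : (aeval (e a)).comp (tr e v) = (aeval (e (a * v)) : MvPolynomial σ ℂ →ₐ[ℂ] ℂ) := by
    apply MvPolynomial.algHom_ext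
    intro i
    rw [AlgHom.comp_apply, tr, aeval_X, aeval_X, map_sum, ← sum_bas_mul e a v i]
    refine Finset.sum_congr rfl fun k _ => ?_
    rw [map_mul, aeval_X, MvPolynomial.aeval_C]
    rfl
  have h2 := DFunLike.congr_fun h f
  rw [AlgHom.comp_apply, MvPolynomial.aeval_eq_eval, MvPolynomial.aeval_eq_eval] at h2
  exact h2

theorem line_tr (v a b : A) (f : MvPolynomial σ ℂ) :
    line e a b (tr e v f) = line e (a * v) (b * v) f := by
  have h : (line e a b).comp (tr e v) = line e (a * v) (b * v) := by
    apply MvPolynomial.algHom_ext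
    intro i
    rw [AlgHom.comp_apply, tr, aeval_X, map_sum]
    have h1 : ∀ k, line e a b (C (e (bas e k * v) i) * MvPolynomial.X k) =
        Polynomial.C (e (bas e k * v) i * e a k) +
          Polynomial.X * Polynomial.C (e (bas e k * v) i * e b k) := by
      intro k
      rw [map_mul]
      unfold line
      rw [aeval_X, MvPolynomial.aeval_C, Polynomial.algebraMap_eq, Polynomial.C_mul,
        Polynomial.C_mul]
      ring
    rw [Finset.sum_congr rfl fun k _ => h1 k, Finset.sum_add_distrib, ← Finset.mul_sum,
      ← map_sum, ← map_sum, sum_bas_mul, sum_bas_mul]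
    unfold line
    rw [aeval_X]
  exact DFunLike.congr_fun h f

variable {S}

theorem conj_mem {u v X : A} (huv : u * v = 1) (hu : ∀ g ∈ S, g * u ∈ S) (hv : ∀ g ∈ S, g * v ∈ S)
    (hX : X ∈ Tan e S) : u * X * v ∈ Tan e S := by
  rw [mem_Tan] at hX ⊢
  intro f hf g hg
  have h1 : Van e S (tr e v f) := by
    intro g hg
    rw [ev_tr]
    exact hf _ (hv g hg)
  have h2 := hX _ h1 (g * u) (hu g hg)
  unfold dv at h2 ⊢
  rw [line_tr, mul_assoc g u v, huv, mul_one] at h2
  have h3 : g * (u * X * v) = g * u * X * v := by simp only [mul_assoc]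
  rw [h3]
  exact h2

/-- Nilpotent elements of the Lie algebra give elements of the closure of the group. -/
theorem van_one_add {v : A} (hv : v ∈ Tan e S) (hv2 : v * v = 0) (h1 : (1 : A) ∈ S)
    {f : MvPolynomial σ ℂ} (hf : Van e S f) : ev e (1 + v) f = 0 := by
  have hd : ∀ f, Polynomial.derivative (line e 1 v f) = line e 1 v (der e v f) := by
    intro f
    induction f using MvPolynomial.induction_on with
    | C r =>
      have h3 : der e v (C r) = 0 := by
        have := (der e v).map_algebraMap r
        rwa [MvPolynomial.algebraMap_eq] at this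
      rw [h3, map_zero]
      unfold line
      rw [MvPolynomial.aeval_C, Polynomial.algebraMap_eq, Polynomial.derivative_C]
    | add p q hp hq => rw [map_add, map_add, map_add, map_add, hp, hq]
    | mul_X p i hp =>
      rw [Derivation.leibniz, map_mul, Polynomial.derivative_mul, hp, smul_eq_mul, smul_eq_mul,
        map_add, map_mul, map_mul]
      have h3 : line e 1 v (MvPolynomial.X i) =
          Polynomial.C (e 1 i) + Polynomial.X * Polynomial.C (e v i) := by
        unfold line
        rw [aeval_X]
      have h4 : Polynomial.derivative (line e 1 v (MvPolynomial.X i)) = Polynomial.C (e v i) := by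
        rw [h3]
        simp
      have h5 : line e 1 v (der e v (MvPolynomial.X i)) = Polynomial.C (e v i) := by
        unfold der
        rw [mkDerivation_X, map_sum]
        have h6 : ∀ k, line e 1 v (C (e (bas e k * v) i) * MvPolynomial.X k) =
            Polynomial.C (e (bas e k * v) i * e 1 k) +
              Polynomial.X * Polynomial.C (e (bas e k * v) i * e v k) := by
          intro k
          rw [map_mul]
          unfold line
          rw [aeval_X, MvPolynomial.aeval_C, Polynomial.algebraMap_eq, Polynomial.C_mul,
            Polynomial.C_mul]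
          ring
        rw [Finset.sum_congr rfl fun k _ => h6 k, Finset.sum_add_distrib, ← Finset.mul_sum,
          ← map_sum, ← map_sum, sum_bas_mul, sum_bas_mul, hv2, one_mul, map_zero, Pi.zero_apply,
          Polynomial.C_0, mul_zero, add_zero]
      rw [h4, h5]
      ring
  have hit : ∀ m, Van e S ((der e v)^[m] f) := by
    intro m
    induction m with
    | zero => exact hf
    | succ m ih =>
      rw [Function.iterate_succ_apply']
      exact hv _ ih
  have hdit : ∀ m, Polynomial.derivative^[m] (line e 1 v f) = line e 1 v ((der e v)^[m] f) := by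
    intro m
    induction m with
    | zero => rfl
    | succ m ih =>
      rw [Function.iterate_succ_apply', ih, hd, Function.iterate_succ_apply']
  have h0 : line e 1 v f = 0 := by
    ext m
    have h2 := hit m 1 h1
    rw [← line_zero e 1 v, ← hdit m, ← Polynomial.coeff_zero_eq_eval_zero,
      Polynomial.coeff_iterate_derivative, zero_add, Nat.descFactorial_self, nsmul_eq_mul] at h2
    have h3 : ((m.factorial : ℕ) : ℂ) ≠ 0 := Nat.cast_ne_zero.2 (Nat.factorial_ne_zero m)
    rw [Polynomial.coeff_zero]
    exact (mul_eq_zero.1 h2).resolve_left h3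
  have h5 : (line e 1 v f).eval 1 = ev e (1 + v) f := by
    have h : (Polynomial.aeval (1 : ℂ)).comp (line e 1 v) = aeval (e (1 + v)) := by
      apply MvPolynomial.algHom_ext
      intro i
      simp [line]
    have h2 := DFunLike.congr_fun h f
    simpa [ev, Polynomial.aeval_def, Polynomial.eval₂_eq_eval_map,
      MvPolynomial.aeval_eq_eval] using h2
  rw [← h5, h0, Polynomial.eval_zero]

end

end Pool.Agent.W446.GP
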