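import Pool.Agent.W446.GP.Gen

/-!
# The group of a torsor contains `SL_2(ℂ)^J`
-/

set_option linter.unusedSectionVars false
set_option linter.unusedVariables false

namespace Pool.Agent.W446.GP

open MvPolynomial

noncomputable section

section Left

variable {A : Type*} [Ring A] [Algebra ℂ A] {σ : Type*} [Fintype σ] [DecidableEq σ]
  (e : A ≃ₗ[ℂ] (σ → ℂ))

theorem sum_mul_bas (a v : A) (i : σ) : ∑ k, e (v * bas e k) i * e a k = e (v * a) i := by
  conv_rhs => rw [← sum_bas e a, Finset.mul_sum, map_sum, Finset.sum_apply]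
  refine Finset.sum_congr rfl fun k _ => ?_
  rw [mul_smul_comm, map_smul, Pi.smul_apply, smul_eq_mul, mul_comm]

/-- Left translation of polynomials. -/
def tl (v : A) : MvPolynomial σ ℂ →ₐ[ℂ] MvPolynomial σ ℂ :=
  aeval (fun i => ∑ k, C (e (v * bas e k) i) * MvPolynomial.X k)

theorem ev_tl (v a : A) (f : MvPolynomial σ ℂ) : ev e a (tl e v f) = ev e (v * a) f := by
  have h : (aeval (e a)).comp (tl e v) = (aeval (e (v * a)) : MvPolynomial σ ℂ →ₐ[ℂ] ℂ) := by
    apply MvPolynomial.algHom_ext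
    intro i
    rw [AlgHom.comp_apply, tl, aeval_X, aeval_X, map_sum, ← sum_mul_bas e a v i]
    refine Finset.sum_congr rfl fun k _ => ?_
    rw [map_mul, aeval_X, MvPolynomial.aeval_C]
    rfl
  have h2 := DFunLike.congr_fun h f
  rw [AlgHom.comp_apply, MvPolynomial.aeval_eq_eval, MvPolynomial.aeval_eq_eval] at h2
  exact h2

end Left

variable {R J : Type} [Fintype R] [Fintype J] [DecidableEq R] [DecidableEq J]

theorem ev_map (a : Alg R J) (f : MvPolynomial (Crd R J) Qb) :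
    ev crdE a (map (algebraMap Qb ℂ) f) = aeval (crd a) f := by
  unfold ev
  rw [eval_map, aeval_def]
  rfl

/-- The group of a closed torsor is closed. -/
theorem closed_group {x : (Alg R J)ˣ} {G : Subgroup (Alg R J)ˣ}
    {P : Set (MvPolynomial (Crd R J) Qb)}
    (hT : ∀ u : (Alg R J)ˣ, x⁻¹ * u ∈ G ↔ ∀ f ∈ P, aeval (crd (u : Alg R J)) f = 0)
    (u : (Alg R J)ˣ) (hu : ∀ F, Van crdE (coeS G) F → ev crdE (u : Alg R J) F = 0) : u ∈ G := by
  have h1 : x⁻¹ * (x * u) ∈ G := by
    rw [hT]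
    intro f hf
    have h2 := hu (tl crdE (x : Alg R J) (map (algebraMap Qb ℂ) f)) ?_
    · rw [ev_tl, ev_map] at h2
      rw [Units.val_mul]
      exact h2
    · rintro _ ⟨g, hg, rfl⟩
      rw [ev_tl, ev_map, ← Units.val_mul]
      refine (hT (x * g)).1 ?_ f hf
      rwa [inv_mul_cancel_left]
  rwa [inv_mul_cancel_left] at h1

/-- Algebraic points of the closure lie on the torsor. -/
theorem point_mem {x : (Alg R J)ˣ} {G : Subgroup (Alg R J)ˣ}
    {P : Set (MvPolynomial (Crd R J) Qb)}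
    (hT : ∀ u : (Alg R J)ˣ, x⁻¹ * u ∈ G ↔ ∀ f ∈ P, aeval (crd (u : Alg R J)) f = 0)
    {k : Crd R J → Qb} (hk : k ∈ ZK (x : Alg R J)) (hreg : Reg (pt k)) :
    x⁻¹ * toU (pt k) hreg ∈ G := by
  rw [hT]
  intro f hf
  change aeval (crd (pt k)) f = 0
  rw [aeval_pt, hk f ((hT x).1 (by rw [inv_mul_cancel]; exact G.one_mem) f hf)]
  rfl

/-- The closure of a conjugate subgroup. -/
theorem closed_conj {G : Subgroup (Alg R J)ˣ}
    (hcl : ∀ u : (Alg R J)ˣ, (∀ F, Van crdE (coeS G) F → ev crdE (u : Alg R J) F = 0) → u ∈ G)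
    (p : (Alg R J)ˣ) (u : (Alg R J)ˣ)
    (hu : ∀ F, Van crdE (coeS (G.comap (MulAut.conj p).toMonoidHom)) F →
      ev crdE (u : Alg R J) F = 0) : u ∈ G.comap (MulAut.conj p).toMonoidHom := by
  rw [Subgroup.mem_comap]
  change p * u * p⁻¹ ∈ G
  apply hcl
  intro F hF
  have h1 := hu (tl crdE (p : Alg R J) (tr crdE ((p⁻¹ : (Alg R J)ˣ) : Alg R J) F)) ?_
  · rw [ev_tl, ev_tr] at h1
    rw [Units.val_mul, Units.val_mul]
    exact h1
  · rintro _ ⟨g, hg, rfl⟩
    rw [ev_tl, ev_tr, ← Units.val_mul, ← Units.val_mul]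
    exact hF _ ⟨_, hg, rfl⟩

theorem snd_mul_inv (z : (Alg R J)ˣ) (j : J) :
    (z : Alg R J).2 j * ((z⁻¹ : (Alg R J)ˣ) : Alg R J).2 j = 1 := by
  have h2 : ((z : Alg R J) * ((z⁻¹ : (Alg R J)ˣ) : Alg R J)).2 j = 1 := by
    rw [Units.mul_inv]
    rfl
  exact h2

theorem fst_mul_inv (z : (Alg R J)ˣ) (r : R) :
    (z : Alg R J).1 r * ((z⁻¹ : (Alg R J)ˣ) : Alg R J).1 r = 1 := by
  have h2 : ((z : Alg R J) * ((z⁻¹ : (Alg R J)ˣ) : Alg R J)).1 r = 1 := by
    rw [Units.mul_inv]
    rfl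
  exact h2

/-- The polynomial giving the polar form with the algebraic matrix `k_j`. -/
def BP (k : Crd R J → Qb) (j : J) : MvPolynomial (Crd R J) Qb :=
  C (k (Sum.inr (j, 1, 1))) * X (Sum.inr (j, 0, 0)) -
    C (k (Sum.inr (j, 0, 1))) * X (Sum.inr (j, 1, 0)) -
    C (k (Sum.inr (j, 1, 0))) * X (Sum.inr (j, 0, 1)) +
    C (k (Sum.inr (j, 0, 0))) * X (Sum.inr (j, 1, 1))

theorem aeval_BP (k : Crd R J → Qb) (j : J) (a : Alg R J) :
    aeval (crd a) (BP k j) = BB ((pt k).2 j) (a.2 j) := by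
  unfold BP BB
  simp only [map_add, map_sub, map_mul, aeval_X, aeval_C, pt_snd]
  rfl

theorem det_eq_of_ZK {x : Alg R J} (a : R) (hdet : ∀ j, (x.2 j).det = x.1 a)
    {k : Crd R J → Qb} (hk : k ∈ ZK x) (j : J) : ((pt k).2 j).det = (pt k).1 a := by
  have h1 : aeval (crd x) (detP j - X (Sum.inl a) : MvPolynomial (Crd R J) Qb) = 0 := by
    rw [map_sub, aeval_detP, aeval_X, hdet]
    exact sub_self _
  have h2 := hk _ h1
  have h3 : aeval (crd (pt k)) (detP j - X (Sum.inl a) : MvPolynomial (Crd R J) Qb) = 0 := by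
    rw [aeval_pt, h2]
    rfl
  rw [map_sub, aeval_detP, aeval_X] at h3
  exact sub_eq_zero.1 h3

/-- **The group of a torsor containing the period point contains `SL_2(ℂ)^J`.** -/
theorem sl2_sub {x : (Alg R J)ˣ} (a : R)
    (hdet : ∀ j, ((x : Alg R J).2 j).det = (x : Alg R J).1 a)
    (hind : LinearIndependent Qb fun t : J × Fin 2 × Fin 2 => (x : Alg R J).2 t.1 t.2.1 t.2.2)
    {G : Subgroup (Alg R J)ˣ} {P₀ : Set (MvPolynomial (Crd R J) Qb)}
    (hT : ∀ u : (Alg R J)ˣ, x⁻¹ * u ∈ G ↔ ∀ f ∈ P₀, aeval (crd (u : Alg R J)) f = 0)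
    (u : (Alg R J)ˣ) (hu1 : (u : Alg R J).1 = 1) (hu2 : ∀ j, ((u : Alg R J).2 j).det = 1) :
    u ∈ G := by
  have hx : Reg (x : Alg R J) := reg_of_unit x
  obtain ⟨k, hk, hreg, hdisc⟩ := exists_first hx hind
  set z : (Alg R J)ˣ := toU (pt k) hreg with hz
  have hzval : (z : Alg R J) = pt k := rfl
  have hzG : x⁻¹ * z ∈ G := point_mem hT hk hreg
  set s : (Alg R J)ˣ := z⁻¹ * x with hs
  have hsG : s ∈ G := by
    have h1 : s = (x⁻¹ * z)⁻¹ := by
      rw [hs]
      group
    rw [h1]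
    exact G.inv_mem hzG
  have hzs : ∀ j, (pt k).2 j * (s : Alg R J).2 j = (x : Alg R J).2 j := by
    intro j
    have h1 : z * s = x := by
      rw [hs]
      group
    have h2 : ((z * s : (Alg R J)ˣ) : Alg R J).2 j = (x : Alg R J).2 j := by rw [h1]
    exact h2
  have htr : ∀ j, BB ((pt k).2 j) ((x : Alg R J).2 j) =
      ((pt k).2 j).det * ((s : Alg R J).2 j).trace := by
    intro j
    rw [← hzs j, BB_mul]
  have hdets : ∀ j, ((pt k).2 j).det * ((s : Alg R J).2 j).det = ((x : Alg R J).2 j).det := by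
    intro j
    rw [← hzs j, Matrix.det_mul]
  have hz0 : ∀ j, ((pt k).2 j).det ≠ 0 := hreg.2
  have hdisc' : ∀ j, ((s : Alg R J).2 j).trace ^ 2 ≠ 4 * ((s : Alg R J).2 j).det := by
    intro j h
    apply hdisc j
    rw [htr, ← hdets]
    linear_combination ((pt k).2 j).det ^ 2 * h
  have hs0 : ∀ j, ((s : Alg R J).2 j).det ≠ 0 := (reg_of_unit s).2
  have hzdet : ∀ j, ((pt k).2 j).det = (pt k).1 a := det_eq_of_ZK a hdet hk
  have hsame : ∀ i j, ((s : Alg R J).2 i).det = ((s : Alg R J).2 j).det := by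
    intro i j
    have h1 := hdets i
    have h2 := hdets j
    rw [hdet, hzdet] at h1 h2
    have h3 : (pt k).1 a ≠ 0 := hreg.1 a
    exact mul_left_cancel₀ h3 (h1.trans h2.symm)
  choose P P' lam hPP' hP'P hdiag hne hsum hprod using fun j => exists_diag _ (hdisc' j)
  have hl0 : ∀ j, lam j 0 ≠ 0 := by
    intro j h
    apply hs0 j
    rw [← hprod, h, zero_mul]
  have hl1 : ∀ j, lam j 1 ≠ 0 := by
    intro j h
    apply hs0 j
    rw [← hprod, h, mul_zero]
  have hroot : ∀ j, ∀ n : ℕ, 0 < n → lam j 0 ^ n ≠ lam j 1 ^ n := by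
    intro j n hn h
    have h1 : (lam j 0 / lam j 1) ∈ Qb := by
      apply mem_of_pow hn
      rw [div_pow, h, div_self (pow_ne_zero _ (hl1 j))]
      exact Qb.one_mem
    set ρ : ℂ := lam j 0 / lam j 1 with hρ
    have hρ0 : lam j 0 = ρ * lam j 1 := by
      rw [hρ, div_mul_cancel₀ _ (hl1 j)]
    have hρne : ρ ≠ 0 := by
      intro h0
      apply hl0 j
      rw [hρ0, h0, zero_mul]
    have hβ : (ρ + 1) ^ 2 / ρ ∈ Qb :=
      Qb.div_mem (Qb.pow_mem (Qb.add_mem h1 Qb.one_mem) 2) h1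
    set β : ℂ := (ρ + 1) ^ 2 / ρ with hβdef
    have hβ2 : ((s : Alg R J).2 j).trace ^ 2 = β * ((s : Alg R J).2 j).det := by
      rw [← hsum, ← hprod, hρ0, hβdef]
      field_simp
    let f : MvPolynomial (Crd R J) Qb := BP k j ^ 2 -
      C (⟨β, hβ⟩ * (k (Sum.inr (j, 0, 0)) * k (Sum.inr (j, 1, 1)) -
        k (Sum.inr (j, 0, 1)) * k (Sum.inr (j, 1, 0)))) * detP j
    have hf : ∀ b : Alg R J, aeval (crd b) f = BB ((pt k).2 j) (b.2 j) ^ 2 -
        β * ((pt k).2 j).det * (b.2 j).det := by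
      intro b
      simp only [f, map_sub, map_mul, map_pow, aeval_BP, aeval_detP, aeval_C]
      rw [det_pt]
      have hc : ∀ c : Qb, algebraMap Qb ℂ c = (c : ℂ) := fun c => rfl
      simp only [hc]
      push_cast
      ring
    have h2 : aeval (crd (x : Alg R J)) f = 0 := by
      rw [hf, htr, ← hdets]
      linear_combination ((pt k).2 j).det ^ 2 * hβ2
    have h3 : aeval (crd (pt k)) f = 0 := by
      rw [aeval_pt, hk f h2]
      rfl
    rw [hf, BB_self] at h3
    have h4 : β = 4 := by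
      have h5 : ((pt k).2 j).det ^ 2 * (4 - β) = 0 := by linear_combination h3
      have h6 := (mul_eq_zero.1 h5).resolve_left (pow_ne_zero 2 (hz0 j))
      linear_combination -h6
    apply hdisc' j
    rw [hβ2, h4]
  have hdist : ∀ i j, i ≠ j → lam i 0 * lam j 1 ≠ lam i 1 * lam j 0 ∧
      lam i 0 * lam j 0 ≠ lam i 1 * lam j 1 := by
    intro i j hij
    have key : (lam i 0 * lam j 1 - lam i 1 * lam j 0) *
        (lam i 0 * lam j 0 - lam i 1 * lam j 1) ≠ 0 := by
      intro h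
      have h1 : (((s : Alg R J).2 i).trace - ((s : Alg R J).2 j).trace) *
          (((s : Alg R J).2 i).trace + ((s : Alg R J).2 j).trace) = 0 := by
        have h2 : ((s : Alg R J).2 j).det * ((((s : Alg R J).2 i).trace -
            ((s : Alg R J).2 j).trace) *
            (((s : Alg R J).2 i).trace + ((s : Alg R J).2 j).trace)) = 0 := by
          have h3 := hsame i j
          rw [← hprod, ← hprod] at h3
          rw [← hsum, ← hsum, ← hprod]
          linear_combination h + (lam j 0 + lam j 1) ^ 2 * h3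
        exact (mul_eq_zero.1 h2).resolve_left (hs0 j)
      have h2 : ∀ c : Qb, BB ((pt k).2 i) ((x : Alg R J).2 i) +
          (c : ℂ) * BB ((pt k).2 j) ((x : Alg R J).2 j) = 0 → False := by
        intro c hc
        have h3 : ∀ b d, k (Sum.inr (i, b, d)) = 0 := by
          intro b d
          have h4 := BB_indep_two hind i j hij (Matrix.of fun b d => k (Sum.inr (i, b, d)))
            (Matrix.of fun b d => c * k (Sum.inr (j, b, d))) ?_ b d
          · exact h4
          · rw [← hc]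
            unfold BB
            simp only [Matrix.of_apply, pt_snd]
            push_cast
            ring
        apply hz0 i
        rw [det_pt, h3, h3, h3, h3]
        simp
      have hzij : ((pt k).2 i).det = ((pt k).2 j).det := by rw [hzdet, hzdet]
      rcases mul_eq_zero.1 h1 with h3 | h3
      · apply h2 (-1)
        rw [htr, htr, hzij]
        push_cast
        linear_combination ((pt k).2 j).det * h3
      · apply h2 1
        rw [htr, htr, hzij]
        push_cast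
        linear_combination ((pt k).2 j).det * h3
    constructor
    · intro h
      apply key
      rw [h, sub_self, zero_mul]
    · intro h
      apply key
      rw [h, sub_self, mul_zero]
  -- the change of basis
  let p : (Alg R J)ˣ :=
    { val := (1, P)
      inv := (1, P')
      val_inv := by
        refine Prod.ext (one_mul _) ?_
        funext j
        exact hPP' j
      inv_val := by
        refine Prod.ext (one_mul _) ?_
        funext j
        exact hP'P j }
  have hPdet : ∀ j, (P j).det ≠ 0 := by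
    intro j h
    have h1 := congrArg Matrix.det (hPP' j)
    rw [Matrix.det_mul, h, zero_mul, Matrix.det_one] at h1
    exact zero_ne_one h1
  have hP'det : ∀ j, (P' j).det ≠ 0 := by
    intro j h
    have h1 := congrArg Matrix.det (hPP' j)
    rw [Matrix.det_mul, h, mul_zero, Matrix.det_one] at h1
    exact zero_ne_one h1
  obtain ⟨k₂, hk₂, hreg₂, hw⟩ := exists_second hx hind
    (fun j => P' j * ((z⁻¹ : (Alg R J)ˣ) : Alg R J).2 j) P (by
      intro j
      rw [Matrix.det_mul]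
      exact mul_ne_zero (hP'det j) ((reg_of_unit z⁻¹).2 j)) hPdet
  have hwG : z⁻¹ * toU (pt k₂) hreg₂ ∈ G := by
    have h1 : z⁻¹ * toU (pt k₂) hreg₂ = (x⁻¹ * z)⁻¹ * (x⁻¹ * toU (pt k₂) hreg₂) := by group
    rw [h1]
    exact G.mul_mem (G.inv_mem hzG) (point_mem hT hk₂ hreg₂)
  have hcomap : ∀ g : (Alg R J)ˣ, p⁻¹ * g * p ∈ G.comap (MulAut.conj p).toMonoidHom ↔ g ∈ G := by
    intro g
    rw [Subgroup.mem_comap]
    change p * (p⁻¹ * g * p) * p⁻¹ ∈ G ↔ g ∈ G
    have : p * (p⁻¹ * g * p) * p⁻¹ = g := by group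
    rw [this]
  rw [← hcomap u]
  refine sl2_mem (G.comap (MulAut.conj p).toMonoidHom) (closed_conj (closed_group hT) p)
    (p⁻¹ * s * p) ((hcomap s).2 hsG) lam ?_ hroot hdist (p⁻¹ * (z⁻¹ * toU (pt k₂) hreg₂) * p)
    ((hcomap _).2 hwG) ?_ _ ?_ ?_
  · intro j
    rw [← hdiag j]
    rfl
  · intro j b d
    have h1 := hw j b d
    have h2 : ((p⁻¹ * (z⁻¹ * toU (pt k₂) hreg₂) * p : (Alg R J)ˣ) : Alg R J).2 j =
        P' j * (((z⁻¹ : (Alg R J)ˣ) : Alg R J).2 j * (pt k₂).2 j) * P j := rfl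
    rw [h2, ← Matrix.mul_assoc]
    exact h1
  · change (1 : R → ℂ) * (u : Alg R J).1 * 1 = 1
    rw [hu1, one_mul, one_mul]
  · intro j
    change (P' j * (u : Alg R J).2 j * P j).det = 1
    rw [Matrix.det_mul, Matrix.det_mul, hu2, mul_one, ← Matrix.det_mul, hP'P, Matrix.det_one]

end

end Pool.Agent.W446.GP
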