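import Pool.Agent.W446.GP.Main

/-!
# The torus part and the classification of the torsors
-/

set_option linter.unusedSectionVars false
set_option linter.unusedVariables false

namespace Pool.Agent.W446.GP

open MvPolynomial

noncomputable section

variable {R J : Type}

theorem unit_ne {t : (R → ℂ)ˣ} (r : R) : (t : R → ℂ) r ≠ 0 := by
  intro h
  have h1 := congrFun t.mul_inv r
  rw [Pi.mul_apply, h, zero_mul] at h1
  exact zero_ne_one h1

variable [Fintype R]

theorem mono_mul (m : R → ℤ) (t t' : R → ℂ) : mono m (t * t') = mono m t * mono m t' := by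
  unfold mono
  rw [← Finset.prod_mul_distrib]
  refine Finset.prod_congr rfl fun r _ => ?_
  rw [Pi.mul_apply, mul_zpow]

theorem mono_one (m : R → ℤ) : mono m (1 : R → ℂ) = 1 := by
  unfold mono
  simp

theorem mono_nat (m : R →₀ ℕ) (t : R → ℂ) :
    mono (fun r => (m r : ℤ)) t = ∏ r, t r ^ m r := by
  unfold mono
  refine Finset.prod_congr rfl fun r _ => ?_
  rw [zpow_natCast]

theorem mono_sub (m m' : R → ℤ) (t : (R → ℂ)ˣ) :
    mono (m - m') (t : R → ℂ) = mono m t / mono m' t := by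
  unfold mono
  rw [← Finset.prod_div_distrib]
  refine Finset.prod_congr rfl fun r _ => ?_
  rw [Pi.sub_apply, zpow_sub₀ (unit_ne r)]

theorem mono_ne (m : R → ℤ) (t : (R → ℂ)ˣ) : mono m (t : R → ℂ) ≠ 0 :=
  Finset.prod_ne_zero_iff.2 fun r _ => zpow_ne_zero _ (unit_ne r)

/-- The section of the projection to the torus. -/
def sec (a : R) (t : (R → ℂ)ˣ) : (Alg R J)ˣ where
  val := ((t : R → ℂ), fun _ => Matrix.diagonal ![(t : R → ℂ) a, 1])
  inv := (((t⁻¹ : (R → ℂ)ˣ) : R → ℂ), fun _ =>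
    Matrix.diagonal ![((t⁻¹ : (R → ℂ)ˣ) : R → ℂ) a, 1])
  val_inv := by
    refine Prod.ext ?_ ?_
    · exact t.mul_inv
    · funext j
      change Matrix.diagonal ![(t : R → ℂ) a, 1] *
        Matrix.diagonal ![((t⁻¹ : (R → ℂ)ˣ) : R → ℂ) a, 1] = 1
      have h : (t : R → ℂ) a * ((t⁻¹ : (R → ℂ)ˣ) : R → ℂ) a = 1 := congrFun t.mul_inv a
      rw [Matrix.diagonal_mul_diagonal, ← Matrix.diagonal_one]
      congr 1
      funext i
      fin_cases i
      · exact h
      · exact mul_one _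
  inv_val := by
    refine Prod.ext ?_ ?_
    · exact t.inv_mul
    · funext j
      change Matrix.diagonal ![((t⁻¹ : (R → ℂ)ˣ) : R → ℂ) a, 1] *
        Matrix.diagonal ![(t : R → ℂ) a, 1] = 1
      have h : ((t⁻¹ : (R → ℂ)ˣ) : R → ℂ) a * (t : R → ℂ) a = 1 := congrFun t.inv_mul a
      rw [Matrix.diagonal_mul_diagonal, ← Matrix.diagonal_one]
      congr 1
      funext i
      fin_cases i
      · exact h
      · exact mul_one _

theorem sec_mul (a : R) (t t' : (R → ℂ)ˣ) :
    (sec a (t * t') : (Alg R J)ˣ) = sec a t * sec a t' := by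
  apply Units.ext
  refine Prod.ext rfl ?_
  funext j
  change Matrix.diagonal ![((t * t' : (R → ℂ)ˣ) : R → ℂ) a, 1] =
    Matrix.diagonal ![(t : R → ℂ) a, 1] * Matrix.diagonal ![(t' : R → ℂ) a, 1]
  rw [Matrix.diagonal_mul_diagonal]
  congr 1
  funext i
  fin_cases i
  · rfl
  · exact (mul_one _).symm

/-- The section as a homomorphism. -/
def secHom (a : R) : (R → ℂ)ˣ →* (Alg R J)ˣ where
  toFun := sec a
  map_one' := by
    apply Units.ext
    refine Prod.ext rfl ?_
    funext j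
    change Matrix.diagonal ![(1 : ℂ), 1] = 1
    rw [← Matrix.diagonal_one]
    congr 1
    funext i
    fin_cases i <;> rfl
  map_mul' := sec_mul a

/-- The projection to the torus. -/
def fstU (u : (Alg R J)ˣ) : (R → ℂ)ˣ := Units.map (MonoidHom.fst (R → ℂ) _) u

variable [Fintype J] [DecidableEq R] [DecidableEq J]

/-- **Membership only depends on the torus part.** -/
theorem mem_iff_sec {G : Subgroup (Alg R J)ˣ} (a : R)
    (hSL : ∀ u : (Alg R J)ˣ, (u : Alg R J).1 = 1 → (∀ j, ((u : Alg R J).2 j).det = 1) → u ∈ G)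
    (u : (Alg R J)ˣ) (hu : ∀ j, ((u : Alg R J).2 j).det = (u : Alg R J).1 a) :
    u ∈ G ↔ sec a (fstU u) ∈ G := by
  have h1 : (sec a (fstU u))⁻¹ * u ∈ G := by
    apply hSL
    · exact (fstU u).inv_mul
    · intro j
      change (Matrix.diagonal ![(((fstU u)⁻¹ : (R → ℂ)ˣ) : R → ℂ) a, 1] *
        (u : Alg R J).2 j).det = 1
      have h : (((fstU u)⁻¹ : (R → ℂ)ˣ) : R → ℂ) a * (u : Alg R J).1 a = 1 :=
        congrFun (fstU u).inv_mul a
      rw [Matrix.det_mul, Matrix.det_diagonal, Fin.prod_univ_two, hu]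
      change (((fstU u)⁻¹ : (R → ℂ)ˣ) : R → ℂ) a * 1 * _ = 1
      rw [mul_one, h]
  constructor
  · intro h
    have h2 : sec a (fstU u) = u * ((sec a (fstU u))⁻¹ * u)⁻¹ := by group
    rw [h2]
    exact G.mul_mem h (G.inv_mem h1)
  · intro h
    have h2 : u = sec a (fstU u) * ((sec a (fstU u))⁻¹ * u) := by group
    rw [h2]
    exact G.mul_mem h h1

/-- Restriction of polynomials to the section. -/
def rs (a : R) : MvPolynomial (Crd R J) ℂ →ₐ[ℂ] MvPolynomial R ℂ :=
  aeval (Sum.elim (fun r => X r) (fun t => !![X a, 0; 0, 1] t.2.1 t.2.2))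

theorem eval_rs (a : R) (t : (R → ℂ)ˣ) (F : MvPolynomial (Crd R J) ℂ) :
    eval (t : R → ℂ) (rs a F) = ev crdE ((sec a t : (Alg R J)ˣ) : Alg R J) F := by
  have h : (aeval (t : R → ℂ)).comp (rs a) =
      (aeval (crdE ((sec a t : (Alg R J)ˣ) : Alg R J)) :
        MvPolynomial (Crd R J) ℂ →ₐ[ℂ] ℂ) := by
    apply MvPolynomial.algHom_ext
    intro i
    rw [AlgHom.comp_apply, rs, aeval_X, aeval_X]
    rcases i with r | ⟨j, b, c⟩
    · rw [Sum.elim_inl, aeval_X]
      rfl
    · rw [Sum.elim_inr, crdE_inr]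
      change _ = Matrix.diagonal ![(t : R → ℂ) a, 1] b c
      fin_cases b <;> fin_cases c <;> simp
  have h2 := DFunLike.congr_fun h F
  rw [AlgHom.comp_apply, MvPolynomial.aeval_eq_eval, MvPolynomial.aeval_eq_eval] at h2
  exact h2

/-- **Closed subgroups of a torus are intersections of kernels of characters.** -/
theorem torus {G : Subgroup (Alg R J)ˣ} (a : R)
    (hcl : ∀ u : (Alg R J)ˣ, (∀ F, Van crdE (coeS G) F → ev crdE (u : Alg R J) F = 0) → u ∈ G)
    (u : (R → ℂ)ˣ) (hu : ∀ m : R → ℤ,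
      (∀ t : (R → ℂ)ˣ, sec a t ∈ G → mono m (t : R → ℂ) = 1) → mono m (u : R → ℂ) = 1) :
    sec a u ∈ G := by
  classical
  apply hcl
  intro F hF
  rw [← eval_rs]
  let T : Subgroup (R → ℂ)ˣ := G.comap (secHom a)
  let χ : (R →₀ ℕ) → (T →* ℂ) := fun m =>
    { toFun := fun t => ∏ r, ((t : (R → ℂ)ˣ) : R → ℂ) r ^ m r
      map_one' := by simp
      map_mul' := by
        intro t t'
        rw [← Finset.prod_mul_distrib]
        refine Finset.prod_congr rfl fun r _ => ?_
        rw [← mul_pow]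
        rfl }
  set f := rs a F with hf
  have h0 : ∀ t : T, ∑ m ∈ f.support, f.coeff m * χ m t = 0 := by
    intro t
    have h1 : eval ((t : (R → ℂ)ˣ) : R → ℂ) f = 0 := by
      rw [hf, eval_rs]
      exact hF _ ⟨_, t.2, rfl⟩
    rw [eval_eq'] at h1
    exact h1
  have h1 : ∀ ψ ∈ f.support.image χ, ∑ m ∈ f.support with χ m = ψ, f.coeff m = 0 := by
    have h2 := linearIndependent_iff'.1 (linearIndependent_monoidHom T ℂ) (f.support.image χ)
      (fun ψ => ∑ m ∈ f.support with χ m = ψ, f.coeff m) ?_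
    · exact h2
    · funext t
      rw [Finset.sum_apply, Pi.zero_apply, ← h0 t,
        ← Finset.sum_fiberwise_of_maps_to (g := χ) (t := f.support.image χ)
          (fun m hm => Finset.mem_image_of_mem _ hm)]
      refine Finset.sum_congr rfl fun ψ _ => ?_
      rw [Pi.smul_apply, smul_eq_mul, Finset.sum_mul]
      refine Finset.sum_congr rfl fun m hm => ?_
      rw [(Finset.mem_filter.1 hm).2]
  have hconst : ∀ m m' : R →₀ ℕ, χ m = χ m' →
      ∏ r, (u : R → ℂ) r ^ m r = ∏ r, (u : R → ℂ) r ^ m' r := by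
    intro m m' h
    have h2 := hu ((fun r => (m r : ℤ)) - fun r => (m' r : ℤ)) ?_
    · rw [mono_sub, mono_nat, mono_nat] at h2
      exact (div_eq_one_iff_eq (by rw [← mono_nat]; exact mono_ne _ _)).1 h2
    · intro t ht
      rw [mono_sub, mono_nat, mono_nat]
      have h3 := DFunLike.congr_fun h ⟨t, ht⟩
      change ∏ r, (t : R → ℂ) r ^ m r = ∏ r, (t : R → ℂ) r ^ m' r at h3
      rw [h3, div_self]
      rw [← mono_nat]
      exact mono_ne _ _
  rw [eval_eq', ← Finset.sum_fiberwise_of_maps_to (g := χ) (t := f.support.image χ)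
    (fun m hm => Finset.mem_image_of_mem _ hm)]
  refine Finset.sum_eq_zero fun ψ hψ => ?_
  obtain ⟨m₀, hm₀, rfl⟩ := Finset.mem_image.1 hψ
  have h2 : ∀ m ∈ f.support.filter (fun m => χ m = χ m₀),
      f.coeff m * ∏ r, (u : R → ℂ) r ^ m r = f.coeff m * ∏ r, (u : R → ℂ) r ^ m₀ r := by
    intro m hm
    rw [hconst m m₀ (Finset.mem_filter.1 hm).2]
  rw [Finset.sum_congr rfl h2, ← Finset.sum_mul, h1 _ hψ, zero_mul]

end

end Pool.Agent.W446.GP
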